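import Pool.Agent.W99.PC.Real
import Pool.Agent.R774.ClStmt
import Pool.Agent.W5h63.AP.Orb

/-!
# Periodic orbits of flows are circles
-/

set_option autoImplicit false
set_option linter.unusedSectionVars false

open scoped Manifold ContDiff Topology
open Set Filter

universe u

namespace Pool.Agent.W99.PC

open Pool.Agent.H718R2.G Pool.Agent.R774.ClStmt Pool.Agent.W5h63.AP

variable {n : ℕ} {N : Type u} [TopologicalSpace N] [T2Space N] [CompactSpace N]
  [ChartedSpace (V n) N] [IsManifold (𝓡 n) ∞ N]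

/-- the point `y` has minimal period one under the flow `Φ` -/
def Unit1 (Φ : V 1 → N → N) (y : N) : Prop :=
  ∀ t : ℝ, Φ (t • e1) y = y ↔ ∃ k : ℤ, t = k

/-- the orbit of `y` -/
def orbC (Φ : V 1 → N → N) (y : N) : Set N := range fun s : V 1 => Φ s y

theorem eq_smul_e1' (s : V 1) : s = (s 0) • e1 := by
  ext i
  have : i = 0 := Subsingleton.elim _ _
  subst this
  rw [smul_e1_apply]

variable {Φ : V 1 → N → N} (hΦ : IsAction 1 n N Φ) {y : N}

include hΦ in
theorem flow_cont : Continuous fun t : ℝ => Φ (t • e1) y := by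
  have h : Continuous (fun s : V 1 => Φ s y) :=
    hΦ.smooth.continuous.comp (continuous_id.prodMk continuous_const)
  exact h.comp (continuous_id.smul continuous_const)

include hΦ in
theorem flow_add (s t : ℝ) : Φ ((s + t) • e1) y = Φ (s • e1) (Φ (t • e1) y) := by
  rw [add_smul, hΦ.add]

include hΦ in
theorem flow_eq (s t : ℝ) : Φ (s • e1) y = Φ (t • e1) y ↔ Φ ((s - t) • e1) y = y := by
  constructor
  · intro h
    rw [sub_eq_neg_add, flow_add hΦ, h, ← flow_add hΦ, neg_add_cancel, zero_smul, hΦ.zero]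
  · intro h
    have e : s = t + (s - t) := by ring
    rw [e, flow_add hΦ, h]

theorem mem_orbC (t : ℝ) : Φ (t • e1) y ∈ orbC Φ y := ⟨_, rfl⟩

theorem orbC_eq {z : N} (hz : z ∈ orbC Φ y) : ∃ t : ℝ, Φ (t • e1) y = z := by
  obtain ⟨s, hs⟩ := hz
  exact ⟨s 0, by rw [← eq_smul_e1']; exact hs⟩

include hΦ in
/-- Normalisation of the period. -/
theorem exists_unit (hper : ∃ s, s ≠ 0 ∧ Φ s y = y) (hmove : ∃ s, Φ s y ≠ y) :
    ∃ Φ' : V 1 → N → N, IsAction 1 n N Φ' ∧ Unit1 Φ' y ∧ orbC Φ' y = orbC Φ y := by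
  let S : AddSubgroup ℝ :=
    { carrier := {t | Φ (t • e1) y = y}
      add_mem' := fun {a b} ha hb => by
        show Φ ((a + b) • e1) y = y
        rw [flow_add hΦ, show Φ (b • e1) y = y from hb, show Φ (a • e1) y = y from ha]
      zero_mem' := by
        show Φ ((0 : ℝ) • e1) y = y
        rw [zero_smul, hΦ.zero]
      neg_mem' := fun {a} ha => by
        show Φ ((-a) • e1) y = y
        have h1 : Φ ((-a) • e1) (Φ (a • e1) y) = y := by
          rw [← flow_add hΦ, neg_add_cancel, zero_smul, hΦ.zero]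
        rwa [show Φ (a • e1) y = y from ha] at h1 }
  have hmem : ∀ t, t ∈ S ↔ Φ (t • e1) y = y := fun t => Iff.rfl
  have hcl : IsClosed (S : Set ℝ) := isClosed_eq (flow_cont hΦ) continuous_const
  have hcyc : ∃ a, S = AddSubgroup.closure {a} := by
    rcases S.dense_or_cyclic with h | h
    · exfalso
      obtain ⟨s, hs⟩ := hmove
      apply hs
      have h1 : (S : Set ℝ) = univ := by
        rw [← hcl.closure_eq]
        exact h.closure_eq
      have h2 : s 0 ∈ (S : Set ℝ) := by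
        rw [h1]
        trivial
      have h3 : Φ ((s 0) • e1) y = y := h2
      rwa [← eq_smul_e1'] at h3
    · exact h
  obtain ⟨a, ha⟩ := hcyc
  have hSa : ∀ t, t ∈ S ↔ ∃ k : ℤ, k • a = t := by
    intro t
    rw [ha]
    exact AddSubgroup.mem_closure_singleton
  have ha0 : a ≠ 0 := by
    rintro rfl
    obtain ⟨s, hs0, hs⟩ := hper
    apply hs0
    have h1 : s 0 ∈ S := by
      rw [hmem, ← eq_smul_e1']
      exact hs
    obtain ⟨k, hk⟩ := (hSa _).1 h1
    rw [smul_zero] at hk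
    rw [eq_smul_e1' s, ← hk, zero_smul]
  refine ⟨fun s => Φ (a • s), ⟨?_, fun z => ?_, fun s t z => ?_⟩, fun t => ?_, ?_⟩
  · have h1 : ContMDiff ((𝓡 1).prod (𝓡 n)) ((𝓡 1).prod (𝓡 n)) ∞
        (fun q : V 1 × N => ((a • q.1, q.2) : V 1 × N)) := by
      refine ContMDiff.prodMk ?_ contMDiff_snd
      have h2 : ContDiff ℝ ∞ (fun s : V 1 => a • s) := contDiff_id.const_smul a
      exact h2.contMDiff.comp contMDiff_fst
    exact hΦ.smooth.comp h1
  · show Φ (a • (0 : V 1)) z = z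
    rw [smul_zero, hΦ.zero]
  · show Φ (a • (s + t)) z = Φ (a • s) (Φ (a • t) z)
    rw [smul_add, hΦ.add]
  · show Φ (a • t • e1) y = y ↔ _
    rw [smul_smul, ← hmem, hSa]
    constructor
    · rintro ⟨k, hk⟩
      refine ⟨k, ?_⟩
      rw [zsmul_eq_mul, mul_comm] at hk
      exact (mul_left_cancel₀ ha0 hk).symm
    · rintro ⟨k, rfl⟩
      exact ⟨k, by rw [zsmul_eq_mul, mul_comm]⟩
  · ext z
    constructor
    · rintro ⟨s, rfl⟩
      exact ⟨a • s, rfl⟩
    · rintro ⟨s, rfl⟩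
      exact ⟨a⁻¹ • s, by
        show Φ (a • a⁻¹ • s) y = Φ s y
        rw [smul_smul, mul_inv_cancel₀ ha0, one_smul]⟩

section unit

variable (hu : Unit1 Φ y)

include hΦ hu in
theorem unit_eq (s t : ℝ) : Φ (s • e1) y = Φ (t • e1) y ↔ ∃ k : ℤ, s - t = k := by
  rw [flow_eq hΦ, hu]

include hΦ hu in
/-- The orbit is a circle. -/
theorem exists_homeo : ∃ σ : orbC Φ y ≃ₜ AddCircle (1 : ℝ),
    ∀ t : ℝ, σ ⟨Φ (t • e1) y, mem_orbC t⟩ = (t : AddCircle (1 : ℝ)) := by
  have : Fact ((0 : ℝ) < 1) := ⟨one_pos⟩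
  let f : ℝ → orbC Φ y := fun t => ⟨Φ (t • e1) y, mem_orbC t⟩
  have hf : Function.Periodic f 1 := by
    intro t
    apply Subtype.ext
    exact (unit_eq hΦ hu _ _).2 ⟨1, by push_cast; ring⟩
  have hfc : Continuous f := (flow_cont hΦ).subtype_mk _
  let g : AddCircle (1 : ℝ) → orbC Φ y := hf.lift
  have hg : ∀ t : ℝ, g (t : AddCircle (1 : ℝ)) = f t := fun t => hf.lift_coe t
  have hgc : Continuous g := by
    refine continuous_coinduced_dom.2 ?_
    exact hfc
  have hbij : Function.Bijective g := by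
    constructor
    · intro a b
      obtain ⟨s, rfl⟩ := QuotientAddGroup.mk_surjective a
      obtain ⟨t, rfl⟩ := QuotientAddGroup.mk_surjective b
      intro h
      have h1 : f s = f t := by
        rw [← hg, ← hg]
        exact h
      obtain ⟨k, hk⟩ := (unit_eq hΦ hu _ _).1 (congrArg Subtype.val h1)
      show ((s : ℝ) : AddCircle (1 : ℝ)) = (t : AddCircle (1 : ℝ))
      rw [← sub_eq_zero, ← AddCircle.coe_sub, AddCircle.coe_eq_zero_iff]
      exact ⟨k, by rw [hk]; simp⟩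
    · rintro ⟨z, hz⟩
      obtain ⟨t, rfl⟩ := orbC_eq hz
      exact ⟨(t : AddCircle (1 : ℝ)), hg t⟩
  let e : AddCircle (1 : ℝ) ≃ orbC Φ y := Equiv.ofBijective g hbij
  have hec : Continuous e := hgc
  refine ⟨(Continuous.homeoOfEquivCompactToT2 hec).symm, fun t => ?_⟩
  rw [Homeomorph.symm_apply_eq]
  show f t = g (t : AddCircle (1 : ℝ))
  rw [hg]

include hΦ hu in
/-- The return map to the circle has a lift. -/
theorem exists_lift {T : N → N} (hT : Continuous T) (hTi : Function.Injective T)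
    (hC : ∀ z ∈ orbC Φ y, T z ∈ orbC Φ y) :
    ∃ φ : ℝ → ℝ, IsLift φ ∧ ∀ t : ℝ, T (Φ (t • e1) y) = Φ (φ t • e1) y := by
  have : Fact ((0 : ℝ) < 1) := ⟨one_pos⟩
  obtain ⟨σ, hσ⟩ := exists_homeo hΦ hu
  let f : ℝ → orbC Φ y := fun t => ⟨T (Φ (t • e1) y), hC _ (mem_orbC t)⟩
  have hfc : Continuous f := (hT.comp (flow_cont hΦ)).subtype_mk _
  let g : C(ℝ, AddCircle (1 : ℝ)) := ⟨fun t => σ (f t), σ.continuous.comp hfc⟩
  obtain ⟨e₀, he₀⟩ := QuotientAddGroup.mk_surjective (g 0)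
  obtain ⟨φ, ⟨-, hφ⟩, -⟩ := (AddCircle.isCoveringMap_coe (1 : ℝ)).existsUnique_continuousMap_lifts
    g 0 e₀ he₀
  have hφ' : ∀ t : ℝ, ((φ t : ℝ) : AddCircle (1 : ℝ)) = σ (f t) := fun t => congrFun hφ t
  have hTφ : ∀ t : ℝ, T (Φ (t • e1) y) = Φ (φ t • e1) y := by
    intro t
    have h1 : σ (f t) = σ ⟨Φ (φ t • e1) y, mem_orbC _⟩ := by rw [hσ, hφ']
    exact congrArg Subtype.val (σ.injective h1)
  refine ⟨φ, ⟨φ.continuous, fun s t => ?_⟩, hTφ⟩
  rw [← unit_eq hΦ hu, ← unit_eq hΦ hu, ← hTφ, ← hTφ]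
  exact hTi.eq_iff

end unit

end Pool.Agent.W99.PC
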