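import Pool.Agent.R774.ClStmt
import Pool.Agent.TH80.OMS.SymDefs
import Pool.Agent.Y504.CO.Stm5
import Pool.Agent.Y504.CO.Rob

/-!
# Periodic circles: definitions
-/

set_option autoImplicit false

open scoped Manifold ContDiff Topology
open Set Filter

universe u

namespace Pool.Agent.W99.PC

open Pool.Agent.H718R2.G Pool.Agent.TH80.OMS Pool.Agent.R774.ClStmt
open Pool.Agent.Y504.CO (Rec)

/-- `C` is a periodic circle of `F`: it is a periodic, nonconstant orbit of a smooth flow `Φ` on `N`
(every smoothly embedded circle is one), `F^m(C) = C` for some `m ≥ 1`, and `F^i(C)` does not meet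
`C` for `1 ≤ i < m`. Nothing is required of the map `F^m : C → C`, nor of `F` outside of
`C, F(C), …, F^(m-1)(C)`. -/
def IsPerCircle (n : ℕ) {N : Type u} [TopologicalSpace N] [ChartedSpace (V n) N] (F : N → N)
    (C : Set N) : Prop :=
  ∃ (Φ : V 1 → N → N) (y : N) (m : ℕ), IsAction 1 n N Φ ∧ (∃ s, s ≠ 0 ∧ Φ s y = y) ∧
    (∃ s, Φ s y ≠ y) ∧ C = (range fun s => Φ s y) ∧ 1 ≤ m ∧ F^[m] '' C = C ∧
    ∀ i, 1 ≤ i → i < m → Disjoint (F^[i] '' C) C

/-- `C` contains periodic points of `F`, but only finitely many, and all recurrent points in `C` are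
periodic. -/
structure MorseSmaleOn {N : Type u} [TopologicalSpace N] (F : N → N) (C : Set N) : Prop where
  nonempty : (C ∩ Per F).Nonempty
  finite : (C ∩ Per F).Finite
  rec_per : C ∩ Rec F ⊆ Per F

/-- All nonperiodic recurrent points of `F`, with the exception of at most countably many, lie on
periodic circles of `F`. -/
def RecOnCircles (n : ℕ) {N : Type u} [TopologicalSpace N] [ChartedSpace (V n) N] (F : N → N) :
    Prop :=
  {x | x ∈ Rec F ∧ x ∉ Per F ∧ ¬ ∃ C, IsPerCircle n F C ∧ x ∈ C}.Countable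

end Pool.Agent.W99.PC
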