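import Pool.Agent.W99.PC.Leaf

/-!
# Density of the periodic points of `Ω`-stable diffeomorphisms with one-dimensional leaves
-/

set_option autoImplicit false
set_option linter.unusedSectionVars false

open scoped Manifold ContDiff Topology
open Set Filter

universe u

namespace Pool.Agent.W99.PC

open Pool.Agent.H718R2.G Pool.Agent.TH80.OMS Pool.Agent.R774.ClStmt
  Pool.Agent.W5h63.AP Pool.Agent.R775.HL Pool.Agent.R774.Cl Pool.Agent.TH80.CLX
  Pool.Agent.R774.OS

variable {m n : ℕ} {N : Type u} [TopologicalSpace N] [T2Space N] [CompactSpace N]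
  [ChartedSpace (V n) N] [IsManifold (𝓡 n) ∞ N] {r : ℕ∞}
  {Φ : V 1 → N → N} {K : Set N} {e : N → V m} {B : N → V m →L[ℝ] V m →L[ℝ] ℝ}

theorem CR_sub {F : N → N} (h : LeafHyp (n := n) F Φ K e B) : CR F ⊆ K := by
  intro z hz
  apply h.chain
  intro W hW hd
  obtain ⟨l, x, h1, h2, h3, -, h4⟩ := hz W hW hd
  refine ⟨l, x, h1, h2, h3, fun i hi => ⟨0, ?_⟩⟩
  rw [h.action.zero]
  exact h4 i hi

theorem metrizable (n : ℕ) (N : Type u) [TopologicalSpace N] [T2Space N] [CompactSpace N]
    [ChartedSpace (V n) N] : SecondCountableTopology N :=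
  ChartedSpace.secondCountable_of_sigmaCompact (V n) N

theorem per_CR {F : N → N} {y : N} (hy : y ∈ Per F) : y ∈ CR F := by
  obtain ⟨l, hl, hly⟩ := hy
  intro W _ hd
  refine ⟨l, fun i => F^[i] y, hl, rfl, hly, fun _ _ => mem_univ _, fun i _ => ?_⟩
  show (F (F^[i] y), F^[i + 1] y) ∈ W
  rw [Function.iterate_succ_apply']
  exact hd _

theorem moves_of_mem {F : N → N} (h : LeafHyp (n := n) F Φ K e B) {y : N} (hy : y ∈ K) :
    ∃ s, Φ s y ≠ y := by
  by_contra hcon
  push Not at hcon
  have h1 : (fun s : V 1 => Φ s y) = fun _ => y := funext hcon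
  have h2 : orb (n := n) Φ y e1 = 0 := by
    unfold orb
    rw [h1]
    have h3 : dr (V 1) (V n) (fun _ : V 1 => y) 0 = 0 := mfderiv_const
    rw [h3]
    rfl
  have h3 := h.free y hy e1 h2
  have h4 := smul_e1_apply 1
  rw [one_smul, h3] at h4
  exact one_ne_zero h4.symm

/-- Periodic points persist in the family. -/
theorem per_open (hr : 1 ≤ r) {F : DiffM n N r} (h : LeafHyp (n := n) F Φ K e B) {c₀ : ℝ}
    (hst : OmegaStable n N r (fam h.action F c₀)) {W : Set N} (hW : IsOpen W) {y : N} (hyW : y ∈ W)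
    (hy : y ∈ Per (fam h.action F c₀)) :
    ∀ᶠ c in 𝓝 c₀, ∃ y' ∈ W, y' ∈ Per (fam h.action F c) := by
  obtain ⟨G, hG⟩ : ∃ G, G = fam h.action F c₀ := ⟨_, rfl⟩
  have hLG : LeafHyp (n := n) G Φ K e B := by
    rw [hG]
    exact h.fam hr c₀
  rw [← hG] at hst hy
  have hyp := Pool.Agent.Y504.CO.Gen.stable_hyp hr hst y hy
  have hmove := moves_of_mem hLG (CR_sub hLG (per_CR hy))
  obtain ⟨l, hl, hly⟩ := hy
  choose α hαc hαm hα0 hα using fun j : ℕ => hLG.leaf (G^[j] y)
  let b : ℝ × ℝ → ℕ → ℝ := fun q j => Nat.rec q.2 (fun j x => q.1 + α j x) j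
  have hb0 : ∀ q, b q 0 = q.2 := fun q => rfl
  have hbs : ∀ q j, b q (j + 1) = q.1 + α j (b q j) := fun q j => rfl
  have hbc : ∀ j, Continuous fun q => b q j := by
    intro j
    induction j with
    | zero => exact continuous_snd
    | succ j ih =>
      simp only [hbs]
      exact continuous_fst.add ((hαc j).comp ih)
  have hb00 : ∀ j, b (0, 0) j = 0 := by
    intro j
    induction j with
    | zero => rfl
    | succ j ih => rw [hbs, ih, hα0, add_zero]
  have hit : ∀ (d t : ℝ) (j : ℕ), (fam h.action F (d + c₀))^[j] (Φ (t • e1) y) =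
      Φ (b (d, t) j • e1) (G^[j] y) := by
    intro d t j
    induction j with
    | zero => rfl
    | succ j ih =>
      rw [Function.iterate_succ_apply', ih, ← fam_fam, ← hG, fam_apply, hα, ← flow_add h.action,
        hbs, ← Function.iterate_succ_apply' G]
  have hG0 : ∀ x, (fam h.action F (0 + c₀)) x = G x := by
    intro x
    rw [zero_add, hG]
  have hG0' : ∀ (j : ℕ) (x : N), (fam h.action F (0 + c₀))^[j] x = G^[j] x := by
    intro j
    induction j with
    | zero => intro x; rfl
    | succ j ih => intro x; rw [Function.iterate_succ_apply', ih, hG0, Function.iterate_succ_apply' G]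
  obtain ⟨β, hβ, hβ1⟩ := flow_deriv h.action (F := G) hl hly hyp hmove (φ := fun t => b (0, t) l)
    (((hbc l).comp (continuous_const.prodMk continuous_id)).continuousAt) (hb00 l)
    (fun t => by rw [← hG0', hit, hly])
  have hβ' : β - 1 ≠ 0 := by
    intro h1
    apply hβ1
    rw [show β = 1 by linarith, abs_one]
  have h1 : HasDerivAt (fun t => b (0, t) l - t) (β - 1) 0 := hβ.sub (hasDerivAt_id 0)
  rw [hasDerivAt_iff_tendsto_slope] at h1
  have h2 : ∀ᶠ t in 𝓝[≠] (0 : ℝ), 0 < slope (fun t => b (0, t) l - t) 0 t * (β - 1) := by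
    have h3 := h1.mul_const (β - 1)
    exact h3.eventually (lt_mem_nhds (mul_self_pos.2 hβ'))
  -- the leaf through `y` stays in `W` for small times
  have h4 : ∀ᶠ t : ℝ in 𝓝 0, Φ (t • e1) y ∈ W := by
    refine (flow_cont h.action).continuousAt.eventually (hW.mem_nhds ?_)
    show Φ ((0 : ℝ) • e1) y ∈ W
    rw [zero_smul, h.action.zero]
    exact hyW
  rw [eventually_nhdsWithin_iff] at h2
  obtain ⟨ε, hε, hball⟩ := Metric.eventually_nhds_iff.1 (h2.and h4)
  have hval : ∀ t, t ≠ 0 → |t| < ε → 0 < (b (0, t) l - t) / t * (β - 1) := by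
    intro t ht0 ht
    have h5 := (hball (y := t) (by rwa [Real.dist_eq, sub_zero])).1 ht0
    rw [slope_def_field] at h5
    have h6 : b (0, (0 : ℝ)) l - 0 = 0 := by rw [hb00, sub_zero]
    simp only [h6] at h5
    rwa [sub_zero, sub_zero] at h5
  obtain ⟨t₂, ht₂, ht₂ε⟩ : ∃ t₂ : ℝ, 0 < t₂ ∧ t₂ < ε := ⟨ε / 2, by positivity, by linarith⟩
  have e1' := hval t₂ ht₂.ne' (by rwa [abs_of_pos ht₂])
  have e2' := hval (-t₂) (by linarith) (by rwa [abs_neg, abs_of_pos ht₂])
  have hprod : (b (0, t₂) l - t₂) * (b (0, -t₂) l - -t₂) < 0 := by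
    have e3 := mul_pos e1' e2'
    have e4 : (b (0, t₂) l - t₂) / t₂ * (β - 1) * ((b (0, -t₂) l - -t₂) / -t₂ * (β - 1)) =
        -((b (0, t₂) l - t₂) * (b (0, -t₂) l - -t₂)) * ((β - 1) ^ 2 / t₂ ^ 2) := by
      field_simp
    rw [e4] at e3
    have e5 : 0 < (β - 1) ^ 2 / t₂ ^ 2 := by positivity
    have e6 := (pos_iff_pos_of_mul_pos e3).2 e5
    linarith
  have hprodc : ∀ᶠ d in 𝓝 (0 : ℝ), (b (d, t₂) l - t₂) * (b (d, -t₂) l - -t₂) < 0 := by
    have e3 : Continuous fun d : ℝ => (b (d, t₂) l - t₂) * (b (d, -t₂) l - -t₂) :=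
      (((hbc l).comp (continuous_id.prodMk continuous_const)).sub continuous_const).mul
        (((hbc l).comp (continuous_id.prodMk continuous_const)).sub continuous_const)
    exact e3.continuousAt.eventually (gt_mem_nhds hprod)
  have hshift : Tendsto (fun c : ℝ => c - c₀) (𝓝 c₀) (𝓝 0) := by
    have : Tendsto (fun c : ℝ => c - c₀) (𝓝 c₀) (𝓝 (c₀ - c₀)) :=
      (continuous_id.sub continuous_const).tendsto c₀
    rwa [sub_self] at this
  filter_upwards [hshift.eventually hprodc] with c hc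
  have e3 : Continuous fun t : ℝ => b (c - c₀, t) l - t :=
    ((hbc l).comp (continuous_const.prodMk continuous_id)).sub continuous_id
  obtain ⟨t, ht, ht0⟩ : ∃ t ∈ Icc (-t₂) t₂, b (c - c₀, t) l - t = 0 := by
    rcases lt_or_ge (b (c - c₀, t₂) l - t₂) 0 with h5 | h5
    · have h6 : 0 < b (c - c₀, -t₂) l - -t₂ := by
        by_contra hcon
        push Not at hcon
        nlinarith
      exact intermediate_value_Icc' (by linarith) e3.continuousOn ⟨h5.le, h6.le⟩
    · have h6 : b (c - c₀, -t₂) l - -t₂ < 0 := by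
        by_contra hcon
        push Not at hcon
        nlinarith
      exact intermediate_value_Icc (by linarith) e3.continuousOn ⟨h6.le, h5⟩
  refine ⟨Φ (t • e1) y, ?_, l, hl, ?_⟩
  · refine (hball (y := t) ?_).2
    rw [Real.dist_eq, sub_zero]
    exact (abs_le.2 ⟨ht.1, ht.2⟩).trans_lt ht₂ε
  · have e4 := hit (c - c₀) t l
    rw [sub_add_cancel, hly] at e4
    rw [e4, show b (c - c₀, t) l = t by linarith]

/-- For some arbitrarily small `c` the periodic points of `Φ_c ∘ F` are dense in its chain recurrent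
set. -/
theorem exists_dense (hr : 1 ≤ r) {F : DiffM n N r} (h : LeafHyp (n := n) F Φ K e B) {δ : ℝ}
    (hδ : 0 < δ) (hst : ∀ c, |c| < δ → OmegaStable n N r (fam h.action F c)) :
    ∃ c, |c| < δ ∧ CR (fam h.action F c) ⊆ closure (Per (fam h.action F c)) := by
  have : SecondCountableTopology N := metrizable n N
  let _ : MetricSpace N := TopologicalSpace.metrizableSpaceMetric N
  let D : Set N → Set ℝ := fun W => {c | |c| < δ ∧ ∃ y ∈ W, y ∈ Per (fam h.action F c)}
  have hDo : ∀ W, IsOpen W → IsOpen (D W) := by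
    intro W hW
    rw [isOpen_iff_mem_nhds]
    rintro c ⟨hc, y, hy, hyp⟩
    have h1 : ∀ᶠ c' in 𝓝 c, |c'| < δ := continuous_abs.continuousAt.eventually (gt_mem_nhds hc)
    filter_upwards [h1, per_open hr h (hst c hc) hW hy hyp] with c' h2 h3
    exact ⟨h2, h3⟩
  have hdense : Dense (⋂ W ∈ TopologicalSpace.countableBasis N, (frontier (D W))ᶜ) := by
    refine dense_biInter_of_isOpen (fun W _ => isClosed_frontier.isOpen_compl)
      (TopologicalSpace.countable_countableBasis N) fun W hW => ?_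
    rw [← interior_eq_empty_iff_dense_compl, ← frontier_compl]
    exact interior_frontier
      (hDo W (TopologicalSpace.isOpen_of_mem_countableBasis hW)).isClosed_compl
  obtain ⟨c, hcδ, hc⟩ := hdense.exists_mem_open Metric.isOpen_ball
    (⟨0, Metric.mem_ball_self hδ⟩ : (Metric.ball (0 : ℝ) δ).Nonempty)
  have hcδ' : |c| < δ := by
    have := Metric.mem_ball.1 hc
    rwa [Real.dist_eq, sub_zero] at this
  refine ⟨c, hcδ', fun z hz => ?_⟩
  have hLG := h.fam hr c
  have hch : ChainRecOn (fam h.action F c) K z := by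
    intro W hW hd
    obtain ⟨l, x, h1, h2, h3, h4, h5⟩ := conley (fam h.action F c).continuous hz W hW hd
    exact ⟨l, x, h1, h2, h3, fun i hi => CR_sub hLG (h4 i hi), h5⟩
  rw [(TopologicalSpace.isBasis_countableBasis N).mem_closure_iff]
  intro W hW hzW
  have hWo := TopologicalSpace.isOpen_of_mem_countableBasis hW
  have hcl : c ∈ closure (D W) := by
    rw [Metric.mem_closure_iff]
    intro ε hε
    obtain ⟨d, hd, y, hy, hyp⟩ := near_per hr hLG hch (ε := min ε (δ - |c|))
      (lt_min hε (by linarith)) (hWo.mem_nhds hzW)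
    rw [fam_fam] at hyp
    refine ⟨d + c, ⟨?_, y, hy, hyp⟩, ?_⟩
    · calc |d + c| ≤ |d| + |c| := abs_add_le _ _
        _ < δ := by linarith [hd.trans_le (min_le_right ε (δ - |c|))]
    · rw [Real.dist_eq, show c - (d + c) = -d by ring, abs_neg]
      exact hd.trans_le (min_le_left _ _)
  have hfr : c ∉ frontier (D W) := by
    have := mem_iInter₂.1 hcδ W hW
    exact this
  have hmem : c ∈ D W := by
    by_contra hcon
    apply hfr
    rw [(hDo W hWo).frontier_eq]
    exact ⟨hcl, hcon⟩
  obtain ⟨-, y, hy, hyp⟩ := hmem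
  exact ⟨y, hy, hyp⟩

/-- Density of the periodic points is invariant under `Ω`-conjugacy. -/
theorem dense_conj {F G : N → N} (hF : Continuous F) (h : OmegaConj F G)
    (hG : Omega G ⊆ closure (Per G)) : Omega F ⊆ closure (Per F) := by
  obtain ⟨f, hf⟩ := h
  intro x hx
  rw [mem_closure_iff]
  intro W hW hxW
  have h1 : IsOpen (f '' (Subtype.val ⁻¹' W)) := f.isOpenMap _ (hW.preimage continuous_subtype_val)
  obtain ⟨W', hW', hWW⟩ := isOpen_induced_iff.1 h1
  have h2 : (f ⟨x, hx⟩ : N) ∈ W' := by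
    have h3 : f ⟨x, hx⟩ ∈ f '' (Subtype.val ⁻¹' W) := ⟨_, hxW, rfl⟩
    rw [← hWW] at h3
    exact h3
  obtain ⟨w, hw, l, hl, hlw⟩ := mem_closure_iff.1 (hG (f ⟨x, hx⟩).2) W' hW' h2
  have hwΩ : w ∈ Omega G := per_mem_omega hl hlw
  have h3 : (⟨w, hwΩ⟩ : Omega G) ∈ f '' (Subtype.val ⁻¹' W) := by
    rw [← hWW]
    exact hw
  obtain ⟨v, hv, hvw⟩ := h3
  have hit : ∀ (j : ℕ) (a : Omega F) (ha : F^[j] a ∈ Omega F),
      (f ⟨F^[j] a, ha⟩ : N) = G^[j] (f a) := by
    intro j
    induction j with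
    | zero => intro a ha; rfl
    | succ j ih =>
      intro a ha
      have hj : F^[j] a ∈ Omega F := by
        clear ih ha
        induction j with
        | zero => exact a.2
        | succ j ih => rw [Function.iterate_succ_apply']; exact omega_maps hF ih
      rw [Function.iterate_succ_apply' G, ← ih a hj]
      exact (hf ⟨F^[j] a, hj⟩ ⟨F^[j + 1] a, ha⟩ (Function.iterate_succ_apply' F j _).symm).symm
  refine ⟨v, hv, l, hl, ?_⟩
  have hvl : F^[l] (v : N) ∈ Omega F := by
    have : ∀ j, F^[j] (v : N) ∈ Omega F := by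
      intro j
      induction j with
      | zero => exact v.2
      | succ j ih => rw [Function.iterate_succ_apply']; exact omega_maps hF ih
    exact this l
  have h4 := hit l v hvl
  have h5 : (f v : N) = w := congrArg Subtype.val hvw
  rw [h5, hlw, ← h5] at h4
  exact congrArg Subtype.val (f.injective (Subtype.ext h4))

/-- **Density of the periodic points.** -/
theorem leaf_dense (hr : 1 ≤ r) {F : DiffM n N r} (hst : OmegaStable n N r F)
    (h : LeafHyp (n := n) F Φ K e B) : Omega F = closure (Per F) := by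
  have : SecondCountableTopology N := metrizable n N
  let _ : MetricSpace N := TopologicalSpace.metrizableSpaceMetric N
  refine subset_antisymm ?_ ?_
  · obtain ⟨U, hU, hFU, hconj⟩ := hst
    rcases isEmpty_or_nonempty N with hN | ⟨⟨z₀⟩⟩
    · intro x
      exact (hN.false x).elim
    obtain ⟨κ, hκ, hκU⟩ := fam_mem r hr (famD h.action r F) (famD_isFam h.action r F) z₀ U hU
      (by rwa [famD_zero])
    have hmem : ∀ c : ℝ, |c| < κ → fam h.action F c ∈ U := fun c hc =>
      hκU _ (by rwa [norm_smul_e1])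
    obtain ⟨c, hc, hd⟩ := exists_dense hr h hκ
      (fun c hc => omegaStable_near hU hconj (hmem c hc))
    exact dense_conj F.continuous (hconj _ (hmem c hc)) fun x hx =>
      hd (omega_CR (fam h.action F c).continuous hx)
  · refine (Pool.Agent.Y504.CO.Cnt.omega_closed (F : N → N)).closure_subset_iff.2 ?_
    rintro p ⟨l, hl, hp⟩
    exact per_mem_omega hl hp

end Pool.Agent.W99.PC
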