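import Mathlib

/-!
# Lifts of circle homeomorphisms, and the first parameter with a periodic point
-/

set_option autoImplicit false

open Set Filter Topology

namespace Pool.Agent.W99.PC

/-- `φ` is a lift of an injective map of `ℝ / ℤ`. -/
structure IsLift (φ : ℝ → ℝ) : Prop where
  cont : Continuous φ
  inj : ∀ s t, (∃ k : ℤ, φ s - φ t = k) ↔ ∃ k : ℤ, s - t = k

/-- intermediate values between `s` and `t` -/
theorem ivt {φ : ℝ → ℝ} (hφ : Continuous φ) {s t v : ℝ} (hst : s < t)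
    (h : (φ s < v ∧ v < φ t) ∨ (φ t < v ∧ v < φ s)) : ∃ u ∈ Ioo s t, φ u = v := by
  rcases h with h | h
  · exact intermediate_value_Ioo hst.le hφ.continuousOn ⟨h.1, h.2⟩
  · exact intermediate_value_Ioo' hst.le hφ.continuousOn ⟨h.1, h.2⟩

theorem not_int {x : ℝ} (h0 : 0 < x) (h1 : x < 1) (k : ℤ) : x ≠ k := by
  rintro rfl
  have h2 : (0 : ℤ) < k := by exact_mod_cast h0
  have h3 : k < 1 := by exact_mod_cast h1
  omega

namespace IsLift

variable {φ : ℝ → ℝ} (h : IsLift φ)

include h in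
/-- `φ (t + 1) - φ t` is a constant integer -/
theorem exists_deg : ∃ d : ℤ, ∀ t, φ (t + 1) = φ t + d := by
  have h1 : ∀ t, ∃ k : ℤ, φ (t + 1) - φ t = k := fun t => (h.inj (t + 1) t).2 ⟨1, by push_cast; ring⟩
  have hcont : Continuous (fun t : ℝ => φ (t + 1) - φ t) :=
    (h.cont.comp (continuous_add_const 1)).sub h.cont
  have hdisc : DiscreteTopology (range (Int.cast : ℤ → ℝ)) :=
    (Int.isClosedEmbedding_coe_real.isEmbedding.toHomeomorph).symm.isEmbedding.discreteTopology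
  obtain ⟨d, hd⟩ := h1 0
  refine ⟨d, fun t => ?_⟩
  have h2 := isPreconnected_univ.constant_of_mapsTo (T := range (Int.cast : ℤ → ℝ)) ⟨hdisc⟩
    hcont.continuousOn (fun t _ => by
      obtain ⟨z, hz⟩ := h1 t
      exact ⟨z, hz.symm⟩) (mem_univ t) (mem_univ (0 : ℝ))
  have h3 : φ (t + 1) - φ t = φ (0 + 1) - φ 0 := h2
  rw [hd] at h3
  linarith

include h in
theorem deg_cases : (∀ t, φ (t + 1) = φ t + 1) ∨ (∀ t, φ (t + 1) = φ t - 1) := by
  obtain ⟨d, hd⟩ := h.exists_deg
  have h01 : φ 1 = φ 0 + d := by have := hd 0; rwa [zero_add] at this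
  -- the values at interior points
  have hno : ∀ s ∈ Ioo (0 : ℝ) 1, ∀ k : ℤ, φ s ≠ φ 0 + k := by
    intro s hs k hk
    obtain ⟨l, hl⟩ := (h.inj s 0).1 ⟨k, by rw [hk]; ring⟩
    rw [sub_zero] at hl
    exact not_int hs.1 hs.2 l hl
  rcases lt_trichotomy d 0 with hd0 | hd0 | hd0
  · right
    by_cases h1 : d = -1
    · intro t
      rw [hd t, h1]
      push_cast
      ring
    · exfalso
      have h2 : d ≤ -2 := by omega
      have h2' : (d : ℝ) ≤ -2 := by exact_mod_cast h2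
      obtain ⟨u, hu, huv⟩ := ivt h.cont (s := 0) (t := 1) (v := φ 0 - 1) one_pos
        (Or.inr ⟨by rw [h01]; linarith, by linarith⟩)
      exact hno u hu (-1) (by rw [huv]; push_cast; ring)
  · exfalso
    rw [hd0] at h01
    push_cast at h01
    rw [add_zero] at h01
    have hhalf : φ (1 / 2) ≠ φ 0 := by
      have := hno (1 / 2) ⟨by norm_num, by norm_num⟩ 0
      push_cast at this
      rwa [add_zero] at this
    set v := (φ (1 / 2) + φ 0) / 2 with hv
    have e1 : ∃ u ∈ Ioo (0 : ℝ) (1 / 2), φ u = v := by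
      refine ivt h.cont (by norm_num) ?_
      rcases lt_or_gt_of_ne hhalf with h2 | h2
      · right
        constructor <;> rw [hv] <;> linarith
      · left
        constructor <;> rw [hv] <;> linarith
    have e2 : ∃ u ∈ Ioo (1 / 2 : ℝ) 1, φ u = v := by
      refine ivt h.cont (by norm_num) ?_
      rcases lt_or_gt_of_ne hhalf with h2 | h2
      · left
        constructor
        · rw [hv]; linarith
        · rw [hv, h01]; linarith
      · right
        constructor
        · rw [hv, h01]; linarith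
        · rw [hv]; linarith
    obtain ⟨u, hu, hu'⟩ := e1
    obtain ⟨w, hw, hw'⟩ := e2
    obtain ⟨k, hk⟩ := (h.inj w u).1 ⟨0, by rw [hu', hw']; simp⟩
    exact not_int (by linarith [hu.2, hw.1]) (by linarith [hu.1, hw.2]) k hk
  · left
    by_cases h1 : d = 1
    · intro t
      rw [hd t, h1]
      push_cast
      ring
    · exfalso
      have h2 : 2 ≤ d := by omega
      have h2' : (2 : ℝ) ≤ d := by exact_mod_cast h2
      obtain ⟨u, hu, huv⟩ := ivt h.cont (s := 0) (t := 1) (v := φ 0 + 1) one_pos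
        (Or.inl ⟨by linarith, by rw [h01]; linarith⟩)
      exact hno u hu 1 (by rw [huv]; push_cast; ring)

end IsLift

theorem add_int {φ : ℝ → ℝ} (h1 : ∀ t, φ (t + 1) = φ t + 1) (t : ℝ) (k : ℤ) :
    φ (t + k) = φ t + k := by
  have hnat : ∀ (j : ℕ) (t : ℝ), φ (t + j) = φ t + j := by
    intro j
    induction j with
    | zero => intro t; simp
    | succ j ih =>
      intro t
      push_cast
      rw [← add_assoc, h1, ih, add_assoc]
  rcases Int.eq_nat_or_neg k with ⟨j, hj | hj⟩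
  · rw [hj]
    exact_mod_cast hnat j t
  · rw [hj]
    have := hnat j (t - j)
    rw [sub_add_cancel] at this
    push_cast
    rw [← sub_eq_add_neg, this]
    ring

theorem IsLift.strictMono {φ : ℝ → ℝ} (h : IsLift φ) (h1 : ∀ t, φ (t + 1) = φ t + 1) :
    StrictMono φ := by
  have key : ∀ s t, s < t → t < s + 1 → φ s < φ t := by
    intro s t hst hts
    by_contra hcon
    push Not at hcon
    rcases hcon.eq_or_lt with h2 | h2
    · obtain ⟨k, hk⟩ := (h.inj t s).1 ⟨0, by rw [h2]; simp⟩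
      exact not_int (by linarith) (by linarith) k hk
    · obtain ⟨u, hu, hu'⟩ := ivt h.cont (s := t) (t := s + 1) (v := φ s) hts
        (Or.inl ⟨h2, by rw [h1]; linarith⟩)
      obtain ⟨k, hk⟩ := (h.inj u s).1 ⟨0, by rw [hu']; simp⟩
      exact not_int (by linarith [hu.1]) (by linarith [hu.2]) k hk
  intro s t hst
  obtain ⟨j, hj⟩ : ∃ j : ℤ, j = ⌈t - s⌉ - 1 := ⟨_, rfl⟩
  have hj0 : 0 ≤ j := by
    have : 0 < ⌈t - s⌉ := Int.ceil_pos.2 (by linarith)
    omega
  have e1 : s < t - j := by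
    have := Int.ceil_lt_add_one (t - s)
    rw [hj]
    push_cast
    linarith
  have e2 : t - j ≤ s + 1 := by
    have := Int.le_ceil (t - s)
    rw [hj]
    push_cast
    linarith
  have e3 : φ s < φ (t - j) := by
    rcases e2.eq_or_lt with h2 | h2
    · rw [h2, h1]
      linarith
    · exact key _ _ e1 h2
  have e4 : φ t = φ (t - j) + j := by
    rw [← add_int h1, sub_add_cancel]
  rw [e4]
  have : (0 : ℝ) ≤ j := by exact_mod_cast hj0
  linarith

/-- orientation reversing maps have fixed points -/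
theorem exists_fixed {φ : ℝ → ℝ} (hc : Continuous φ) (h1 : ∀ t, φ (t + 1) = φ t - 1) :
    ∃ t, φ t = t := by
  have hnat : ∀ (j : ℕ) (t : ℝ), φ (t + j) = φ t - j := by
    intro j
    induction j with
    | zero => intro t; simp
    | succ j ih =>
      intro t
      push_cast
      rw [← add_assoc, h1, ih]
      ring
  obtain ⟨j, hj⟩ := exists_nat_gt |φ 0|
  have h2 := abs_lt.1 hj
  have e1 : φ j - j < 0 := by
    have := hnat j 0
    rw [zero_add] at this
    rw [this]
    have h4 : (0 : ℝ) ≤ j := Nat.cast_nonneg j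
    linarith [h2.2]
  have e2 : 0 < φ (-j) - -j := by
    have := hnat j (-j)
    rw [neg_add_cancel] at this
    linarith [h2.1, Nat.cast_nonneg (α := ℝ) j]
  have hc' : Continuous fun t => φ t - t := hc.sub continuous_id
  obtain ⟨t, ht⟩ := mem_range_of_exists_le_of_exists_ge hc' ⟨(j : ℝ), e1.le⟩ ⟨-(j : ℝ), e2.le⟩
  exact ⟨t, by linarith⟩

section param

variable {φ : ℝ → ℝ}

theorem iter_add_int (h1 : ∀ t, φ (t + 1) = φ t + 1) (c : ℝ) (k : ℕ) (t : ℝ) (p : ℤ) :
    (fun x => c + φ x)^[k] (t + p) = (fun x => c + φ x)^[k] t + p := by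
  induction k generalizing t with
  | zero => rfl
  | succ k ih =>
    rw [Function.iterate_succ_apply, Function.iterate_succ_apply, ← ih]
    show (fun x => c + φ x)^[k] (c + φ (t + p)) = (fun x => c + φ x)^[k] (c + φ t + p)
    rw [add_int h1, add_assoc]

theorem iter_cont (hc : Continuous φ) (k : ℕ) :
    Continuous fun q : ℝ × ℝ => (fun x => q.1 + φ x)^[k] q.2 := by
  induction k with
  | zero => exact continuous_snd
  | succ k ih =>
    have e : (fun q : ℝ × ℝ => (fun x => q.1 + φ x)^[k + 1] q.2) =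
        fun q : ℝ × ℝ => q.1 + φ ((fun x => q.1 + φ x)^[k] q.2) := by
      funext q
      rw [Function.iterate_succ_apply']
    rw [e]
    exact continuous_fst.add (hc.comp ih)

theorem iter_ge (hm : Monotone φ) {c : ℝ} (hc : 0 ≤ c) (k : ℕ) (t : ℝ) :
    φ^[k] t ≤ (fun x => c + φ x)^[k] t := by
  induction k with
  | zero => exact le_rfl
  | succ k ih =>
    rw [Function.iterate_succ_apply', Function.iterate_succ_apply']
    have := hm ih
    show φ (φ^[k] t) ≤ c + φ _
    linarith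

/-- **The first parameter.** -/
theorem first_param (hc : Continuous φ) (hm : Monotone φ) (h1 : ∀ t, φ (t + 1) = φ t + 1)
    {k : ℕ} (hk : 1 ≤ k) {p : ℤ} (hno : ∀ t, φ^[k] t ≠ t + p) {κ : ℝ} (hκ : 0 < κ) {t₀ : ℝ}
    (ht₀ : φ^[k] t₀ < t₀ + p) (ht₀' : t₀ + p - κ < φ^[k] t₀) :
    ∃ c, 0 < c ∧ c ≤ κ ∧ ∃ t₁, (fun x => c + φ x)^[k] t₁ = t₁ + p ∧
      ∀ t, (fun x => c + φ x)^[k] t ≤ t + p := by
  set Ψ : ℝ × ℝ → ℝ := fun q => (fun x => q.1 + φ x)^[k] q.2 with hΨ
  have hΨc : Continuous Ψ := iter_cont hc k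
  have hΨp : ∀ c t (j : ℤ), Ψ (c, t + j) = Ψ (c, t) + j := fun c t j => iter_add_int h1 c k t j
  have hΨ0 : ∀ t, Ψ (0, t) = φ^[k] t := by
    intro t
    show (fun x => 0 + φ x)^[k] t = _
    simp only [zero_add]
  -- all points move below `t + p`
  have hall : ∀ t, Ψ (0, t) < t + p := by
    intro t
    by_contra hcon
    push Not at hcon
    have hc0 : Continuous fun t => Ψ (0, t) - (t + p) :=
      (hΨc.comp (continuous_const.prodMk continuous_id)).sub (continuous_id.add continuous_const)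
    obtain ⟨u, hu⟩ := mem_range_of_exists_le_of_exists_ge (c := 0) hc0
      ⟨t₀, by show Ψ (0, t₀) - (t₀ + p) ≤ 0; rw [hΨ0]; linarith⟩
      ⟨t, by show 0 ≤ Ψ (0, t) - (t + p); linarith⟩
    apply hno u
    have hu' : Ψ (0, u) - (u + p) = 0 := hu
    rw [hΨ0] at hu'
    linarith
  set Z : Set (ℝ × ℝ) := (Icc 0 κ ×ˢ Icc 0 1) ∩ {q | q.2 + p ≤ Ψ q} with hZ
  have hZc : IsCompact Z := (isCompact_Icc.prod isCompact_Icc).inter_right
    (isClosed_le (continuous_snd.add continuous_const) hΨc)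
  set S : Set ℝ := Prod.fst '' Z with hS
  have hSc : IsCompact S := hZc.image continuous_fst
  have hκS : κ ∈ S := by
    refine ⟨(κ, Int.fract t₀), ⟨⟨⟨hκ.le, le_rfl⟩, ⟨Int.fract_nonneg _, (Int.fract_lt_one _).le⟩⟩,
      ?_⟩, rfl⟩
    show Int.fract t₀ + p ≤ Ψ (κ, Int.fract t₀)
    have e1 : Ψ (κ, t₀) = Ψ (κ, Int.fract t₀) + ⌊t₀⌋ := by
      rw [← hΨp]
      congr 2
      exact (Int.fract_add_floor t₀).symm
    have e2 : t₀ + p ≤ Ψ (κ, t₀) := by
      obtain ⟨j, rfl⟩ : ∃ j, k = j + 1 := ⟨k - 1, by omega⟩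
      have h2 := hm (iter_ge hm hκ.le j t₀)
      have h3 : Ψ (κ, t₀) = κ + φ ((fun x => κ + φ x)^[j] t₀) := Function.iterate_succ_apply' _ _ _
      rw [Function.iterate_succ_apply'] at ht₀'
      rw [h3]
      linarith
    have e3 := Int.fract_add_floor t₀
    linarith
  obtain ⟨c, hc'⟩ : ∃ c, c = sInf S := ⟨_, rfl⟩
  have hcS : c ∈ S := by
    rw [hc']
    exact hSc.sInf_mem ⟨κ, hκS⟩
  have hlow : ∀ c' ∈ S, c ≤ c' := fun c' h => by
    rw [hc']
    exact csInf_le hSc.bddBelow h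
  have h0S : (0 : ℝ) ∉ S := by
    rintro ⟨q, hq, hq0⟩
    have h2 : q.2 + p ≤ Ψ q := hq.2
    have h3 : q = (0, q.2) := Prod.ext hq0 rfl
    rw [h3] at h2
    exact absurd (hall q.2) (not_lt.2 h2)
  have hc0 : 0 < c := by
    obtain ⟨q, hq, hqc⟩ := hcS
    have h2 : 0 ≤ c := hqc ▸ hq.1.1.1
    refine lt_of_le_of_ne h2 ?_
    rintro rfl
    exact h0S ⟨q, hq, hqc⟩
  have hbelow : ∀ c', 0 ≤ c' → c' < c → ∀ t, Ψ (c', t) < t + p := by
    intro c' h0 hlt t
    by_contra hcon
    push Not at hcon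
    have e1 : Ψ (c', t) = Ψ (c', Int.fract t) + ⌊t⌋ := by
      rw [← hΨp]
      congr 2
      exact (Int.fract_add_floor t).symm
    have e3 := Int.fract_add_floor t
    have h2 : c' ∈ S := by
      refine ⟨(c', Int.fract t), ⟨⟨⟨h0, ?_⟩, ⟨Int.fract_nonneg _, (Int.fract_lt_one _).le⟩⟩, ?_⟩, rfl⟩
      · exact hlt.le.trans (hlow κ hκS)
      · show Int.fract t + p ≤ Ψ (c', Int.fract t)
        linarith
    exact absurd (hlow c' h2) (not_le.2 hlt)
  have hle : ∀ t, Ψ (c, t) ≤ t + p := by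
    intro t
    have h2 : Tendsto (fun c' => Ψ (c', t)) (𝓝[<] c) (𝓝 (Ψ (c, t))) := by
      have : Continuous fun c' => Ψ (c', t) := hΨc.comp (continuous_id.prodMk continuous_const)
      exact (this.tendsto c).mono_left nhdsWithin_le_nhds
    refine le_of_tendsto h2 ?_
    have h3 : Ioo 0 c ∈ 𝓝[<] c := Ioo_mem_nhdsLT hc0
    filter_upwards [h3] with c' hc'
    exact (hbelow c' hc'.1.le hc'.2 t).le
  obtain ⟨q, hq, hqc⟩ := hcS
  refine ⟨c, hc0, hlow κ hκS, q.2, ?_, hle⟩
  apply le_antisymm (hle q.2)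
  have h2 : q.2 + p ≤ Ψ q := hq.2
  have h3 : q = (c, q.2) := Prod.ext hqc rfl
  rw [h3] at h2
  exact h2

end param

end Pool.Agent.W99.PC
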