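import Pool.Agent.Y504.CO.Gen
import Pool.Agent.W5h63.AP.Orb
import Pool.Agent.R774.ClStmt
import Pool.Agent.W99.PC.Real

/-!
# Tangencies along the orbits of a flow
-/

set_option autoImplicit false
set_option linter.unusedSectionVars false

open scoped Manifold ContDiff Topology
open Set Filter

universe u

namespace Pool.Agent.W99.PC

open Pool.Agent.H718R2.G Pool.Agent.TH80.OMS Pool.Agent.Y504.CO Pool.Agent.R774.ClStmt
  Pool.Agent.W5h63.AP

/-- derivative of an implicitly defined function -/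
theorem hasDeriv_implicit {θ ψ φ : ℝ → ℝ} {b : ℝ} (hθ : HasDerivAt θ 1 0)
    (hφ : ContinuousAt φ 0) (hφ0 : φ 0 = 0) (hψ : HasDerivAt ψ b 0) (h : ∀ t, θ (φ t) = ψ t) :
    HasDerivAt φ b 0 := by
  have hq : ContinuousAt (dslope θ 0) 0 := by
    rw [continuousAt_dslope_same]
    exact hθ.differentiableAt
  have hq0 : dslope θ 0 0 = 1 := by rw [dslope_same, hθ.deriv]
  have hqφ : Tendsto (fun t => dslope θ 0 (φ t)) (𝓝 0) (𝓝 1) := by
    have h1 : ContinuousAt (fun t => dslope θ 0 (φ t)) 0 :=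
      ContinuousAt.comp (g := dslope θ 0) (f := φ) (by rw [hφ0]; exact hq) hφ
    have h2 : Tendsto (fun t => dslope θ 0 (φ t)) (𝓝 0) (𝓝 (dslope θ 0 (φ 0))) := h1
    rwa [hφ0, hq0] at h2
  have hid : ∀ t, φ t * dslope θ 0 (φ t) = ψ t - ψ 0 := by
    intro t
    have h1 := sub_smul_dslope θ 0 (φ t)
    rw [sub_zero, smul_eq_mul] at h1
    rw [h1, h, ← h 0, hφ0]
  rw [hasDerivAt_iff_tendsto_slope] at hψ ⊢
  have h3 : Tendsto (fun t => slope ψ 0 t / dslope θ 0 (φ t)) (𝓝[≠] 0) (𝓝 (b / 1)) :=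
    hψ.div (hqφ.mono_left nhdsWithin_le_nhds) one_ne_zero
  rw [div_one] at h3
  refine h3.congr' ?_
  have h4 : ∀ᶠ t in 𝓝[≠] (0 : ℝ), dslope θ 0 (φ t) ≠ 0 :=
    (hqφ.mono_left nhdsWithin_le_nhds).eventually_ne one_ne_zero
  filter_upwards [h4, self_mem_nhdsWithin] with t ht ht0
  have ht0' : t ≠ 0 := ht0
  rw [slope_def_field, slope_def_field, hφ0, sub_zero, sub_zero, ← hid t]
  field_simp

variable {n : ℕ} {N : Type u} [TopologicalSpace N] [T2Space N] [CompactSpace N]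
  [ChartedSpace (V n) N] [IsManifold (𝓡 n) ∞ N]

theorem eq_smul_e1 (s : V 1) : s = (s 0) • e1 := by
  ext i
  have : i = 0 := Subsingleton.elim _ _
  subst this
  rw [smul_e1_apply]

/-- The derivative of the return map along an orbit of a flow. -/
theorem flow_deriv {Φ : V 1 → N → N} (hΦ : IsAction 1 n N Φ) {F : N → N} {k : ℕ} {y : N}
    (hk : 1 ≤ k) (hper : F^[k] y = y) (hyp : IsHyperbolicPer n F y) (hmove : ∃ s, Φ s y ≠ y)
    {φ : ℝ → ℝ} (hc : ContinuousAt φ 0) (h0 : φ 0 = 0)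
    (hF : ∀ t : ℝ, F^[k] (Φ (t • e1) y) = Φ (φ t • e1) y) :
    ∃ b : ℝ, HasDerivAt φ b 0 ∧ |b| ≠ 1 := by
  classical
  have hsm : ContMDiff (𝓡 1) (𝓡 n) ∞ (fun s : V 1 => Φ s y) :=
    hΦ.smooth.comp (contMDiff_id.prodMk contMDiff_const)
  have hθ0 : (fun s : V 1 => Φ s y) 0 = y := hΦ.zero y
  obtain ⟨J, hJ⟩ := curve_deriv hsm hθ0
  obtain ⟨D, hD, hroot⟩ := hyp.2 k hk hper (chartAt (V n) y) (IsManifold.chart_mem_maximalAtlas y)
    (mem_chart_source _ _)
  obtain ⟨v, hv⟩ : ∃ v, v = J e1 := ⟨_, rfl⟩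
  have hl : HasDerivAt (fun t : ℝ => t • e1) e1 0 := by
    simpa using (hasDerivAt_id (0 : ℝ)).smul_const e1
  have hθ : HasDerivAt (fun t : ℝ => (chartAt (V n) y) (Φ (t • e1) y)) v 0 := by
    have h1 : HasFDerivAt (fun s : V 1 => (chartAt (V n) y) (Φ s y)) J ((0 : ℝ) • e1) := by
      rw [zero_smul]
      exact hJ
    rw [hv]
    exact h1.comp_hasDerivAt (0 : ℝ) hl
  have hv0 : v ≠ 0 := by
    rintro rfl
    have h1 := flow_const (n := n) (O := univ) isOpen_univ (P := Φ) (fun _ _ _ => mem_univ _)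
      (fun x _ => hΦ.zero x) (fun s t x _ => hΦ.add s t x) hΦ.smooth.contMDiffOn (mem_univ y) hθ
    obtain ⟨s, hs⟩ := hmove
    apply hs
    rw [eq_smul_e1 s]
    exact h1 _
  have hcurve : Continuous (fun t : ℝ => Φ (t • e1) y) :=
    hsm.continuous.comp (continuous_id.smul continuous_const)
  have hg : HasDerivAt (fun t : ℝ => (chartAt (V n) y) (F^[k] (Φ (t • e1) y))) (D v) 0 := by
    have e0 : (chartAt (V n) y) (Φ ((0 : ℝ) • e1) y) = (chartAt (V n) y) y := by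
      rw [zero_smul, hΦ.zero]
    have h1 := HasFDerivAt.comp_hasDerivAt (l := fun w => (chartAt (V n) y)
      (F^[k] ((chartAt (V n) y).symm w))) (f := fun t : ℝ => (chartAt (V n) y) (Φ (t • e1) y))
      (0 : ℝ) (by rw [e0]; exact hD) hθ
    refine h1.congr_of_eventuallyEq ?_
    have h2 : ∀ᶠ t : ℝ in 𝓝 0, Φ (t • e1) y ∈ (chartAt (V n) y).source := by
      refine hcurve.continuousAt.eventually ((chartAt (V n) y).open_source.mem_nhds ?_)
      show Φ ((0 : ℝ) • e1) y ∈ _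
      rw [zero_smul, hΦ.zero]
      exact mem_chart_source _ _
    filter_upwards [h2] with t ht
    show _ = (chartAt (V n) y) (F^[k] ((chartAt (V n) y).symm ((chartAt (V n) y) (Φ (t • e1) y))))
    rw [(chartAt (V n) y).left_inv ht]
  -- a functional
  obtain ⟨l, hlv⟩ : ∃ l : V n →L[ℝ] ℝ, l v = 1 := by
    have hvv : inner ℝ v v ≠ (0 : ℝ) := inner_self_ne_zero.2 hv0
    refine ⟨(inner ℝ v v)⁻¹ • innerSL ℝ v, ?_⟩
    rw [ContinuousLinearMap.smul_apply, innerSL_apply_apply, smul_eq_mul, inv_mul_cancel₀ hvv]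
  have hgθ : ∀ t : ℝ, (chartAt (V n) y) (Φ (φ t • e1) y) =
      (chartAt (V n) y) (F^[k] (Φ (t • e1) y)) := fun t => by rw [hF]
  have h1 : HasDerivAt (fun t : ℝ => l ((chartAt (V n) y) (Φ (t • e1) y))) 1 0 := by
    have := l.hasFDerivAt.comp_hasDerivAt (0 : ℝ) hθ
    rwa [hlv] at this
  have h2 : HasDerivAt (fun t : ℝ => l ((chartAt (V n) y) (F^[k] (Φ (t • e1) y)))) (l (D v)) 0 :=
    l.hasFDerivAt.comp_hasDerivAt (0 : ℝ) hg
  have h3 := hasDeriv_implicit h1 hc h0 h2 (fun t => by rw [hgθ])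
  refine ⟨l (D v), h3, ?_⟩
  -- the eigenvalue
  have h4 : HasDerivAt (fun t : ℝ => (chartAt (V n) y) (Φ (φ t • e1) y)) (l (D v) • v) 0 := by
    have := HasDerivAt.scomp (0 : ℝ) (h := φ) (g₁ := fun t : ℝ => (chartAt (V n) y) (Φ (t • e1) y))
      (by rw [h0]; exact hθ) h3
    exact this
  have h5 : D v = l (D v) • v := by
    refine hg.unique ?_
    simpa only [hgθ] using h4
  intro hb
  have h6 : Module.End.HasEigenvalue (D : V n →ₗ[ℝ] V n) (l (D v)) :=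
    Module.End.hasEigenvalue_of_hasEigenvector (x := v)
      ⟨Module.End.mem_eigenspace_iff.2 h5, hv0⟩
  have h7 := (Module.End.hasEigenvalue_iff_isRoot_charpoly _ _).1 h6
  have h8 : ((LinearMap.charpoly (D : V n →ₗ[ℝ] V n)).map (algebraMap ℝ ℂ)).IsRoot
      (algebraMap ℝ ℂ (l (D v))) := h7.map
  apply hroot _ h8
  show ‖((l (D v) : ℝ) : ℂ)‖ = 1
  rw [Complex.norm_real, Real.norm_eq_abs, hb]

/-- There are no tangencies. -/
theorem no_tangency {Φ : V 1 → N → N} (hΦ : IsAction 1 n N Φ) {F : N → N} {k : ℕ} {y : N}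
    (hk : 1 ≤ k) (hper : F^[k] y = y) (hyp : IsHyperbolicPer n F y) (hmove : ∃ s, Φ s y ≠ y)
    {φ : ℝ → ℝ} (hc : ContinuousAt φ 0) (h0 : φ 0 = 0)
    (hF : ∀ t : ℝ, F^[k] (Φ (t • e1) y) = Φ (φ t • e1) y) (hle : ∀ t, φ t ≤ t) : False := by
  obtain ⟨b, hb, hb1⟩ := flow_deriv hΦ hk hper hyp hmove hc h0 hF
  have h1 : HasDerivAt (fun t => φ t - t) (b - 1) 0 := hb.sub (hasDerivAt_id 0)
  have h2 : IsLocalMax (fun t => φ t - t) 0 := by
    refine Eventually.of_forall fun t => ?_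
    show φ t - t ≤ φ 0 - 0
    rw [h0]
    linarith [hle t]
  have h3 := h2.hasDerivAt_eq_zero h1
  apply hb1
  have : b = 1 := by linarith
  rw [this, abs_one]

end Pool.Agent.W99.PC
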