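import Pool.Agent.W99.PC.Circ
import Pool.Agent.W99.PC.Tang
import Pool.Agent.R189.NC.Toral
import Pool.Agent.R775.HL.Tor
import Pool.Agent.TH80.CLX.Fam

/-!
# Perturbations along a periodic circle
-/

set_option autoImplicit false
set_option linter.unusedSectionVars false

open scoped Manifold ContDiff Topology
open Set Filter

universe u

namespace Pool.Agent.W99.PC

open Pool.Agent.H718R2.G Pool.Agent.TH80.OMS Pool.Agent.Y504.CO Pool.Agent.R774.ClStmt
  Pool.Agent.W5h63.AP Pool.Agent.R189.NC Pool.Agent.TH80.CLX Pool.Agent.R775.HL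
  Pool.Agent.W564.SC

variable {n : ℕ} {N : Type u} [TopologicalSpace N] [T2Space N] [CompactSpace N]
  [ChartedSpace (V n) N] [IsManifold (𝓡 n) ∞ N] {r : ℕ∞}

theorem flow_nilAction {Φ : V 1 → N → N} (hΦ : IsAction 1 n N Φ) :
    IsNilAction n N (tau 1) univ (fun (g : Multiplicative (V 1)) y => Φ g.toAdd y) where
  rep_cont := by
    have h1 : Continuous fun a : V 1 => tau 1 (Multiplicative.ofAdd a) := by
      refine continuous_matrix fun i j => ?_
      exact (tau_smooth (f := fun a : V 1 => Multiplicative.ofAdd a) (fun i => by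
        exact (EuclideanSpace.proj (𝕜 := ℝ) i).contDiff) i j).continuous
    exact h1
  rep_inj := by
    intro a b hab
    apply Multiplicative.toAdd.injective
    ext i
    rw [← tau_entry a i, ← tau_entry b i, hab]
  uni := tau_uni
  isOpen := isOpen_univ
  maps := fun _ _ _ => mem_univ _
  one := fun y _ => hΦ.zero y
  mul := fun g h y _ => hΦ.add _ _ y
  cont := by
    have h1 : Continuous (fun q : V 1 × N => Φ q.1 q.2) := hΦ.smooth.continuous
    exact h1.continuousOn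
  smooth := by
    intro j c hc
    have h1 : ContDiff ℝ ∞ (fun s : V j => (c s).toAdd) := by
      rw [contDiff_euclidean]
      intro i
      have h2 := hc i.castSucc (Fin.last 1)
      simp only [tau_entry] at h2
      exact h2
    have h2 : ContMDiff ((𝓡 j).prod (𝓡 n)) ((𝓡 1).prod (𝓡 n)) ∞
        (fun p : V j × N => (((c p.1).toAdd, p.2) : V 1 × N)) :=
      (h1.contMDiff.comp contMDiff_fst).prodMk contMDiff_snd
    exact (hΦ.smooth.comp h2).contMDiffOn

theorem norm_smul_e1 (c : ℝ) : ‖c • e1‖ = |c| := by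
  rw [norm_smul, Real.norm_eq_abs]
  have : ‖e1‖ = 1 := by
    unfold e1
    rw [PiLp.norm_single, norm_one]
  rw [this, mul_one]

/-- Translations along a periodic circle. -/
theorem translate (hr : 1 ≤ r) {Φ : V 1 → N → N} (hΦ : IsAction 1 n N Φ) {y : N}
    (hu : Unit1 Φ y) (F : DiffM n N r) {m : ℕ} (hm : 1 ≤ m) {φ : ℝ → ℝ}
    (hF : ∀ t : ℝ, F^[m] (Φ (t • e1) y) = Φ (φ t • e1) y)
    (hdis : ∀ i, 1 ≤ i → i < m → ∀ s s', F^[i] (Φ s y) ≠ Φ s' y)
    (U : Set (DiffM n N r)) (hU : IsOpen[strongTop n N r] U) (hFU : F ∈ U) :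
    ∃ κ : ℝ, 0 < κ ∧ ∀ c : ℝ, |c| ≤ κ → ∃ F' ∈ U,
      ∀ t : ℝ, F'^[m] (Φ (t • e1) y) = Φ ((c + φ t) • e1) y := by
  have hact := flow_nilAction hΦ
  have hone : IsOne (tau 1) (fun t : ℝ => Multiplicative.ofAdd (t • e1)) := by
    refine ⟨fun a b => ?_, fun s t => ?_⟩
    · refine tau_smooth (f := fun t : ℝ => Multiplicative.ofAdd (t • e1)) (fun i => ?_) a b
      have e : (fun s : ℝ => (Multiplicative.ofAdd (s • e1)).toAdd i) = fun s : ℝ => s * e1 i := rfl
      rw [e]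
      exact contDiff_id.mul contDiff_const
    · rw [add_smul, ofAdd_add]
  have hcoc : ∃ K : Set (Multiplicative (V 1)), IsCompact K ∧ ∀ g : Multiplicative (V 1),
      ∃ k ∈ K, Φ g.toAdd y = Φ k.toAdd y := by
    refine ⟨(fun t : ℝ => Multiplicative.ofAdd (t • e1)) '' Icc 0 1, ?_, fun g => ?_⟩
    · refine isCompact_Icc.image ?_
      have h1 : Continuous fun t : ℝ => t • e1 := continuous_id.smul continuous_const
      exact h1
    · refine ⟨_, ⟨Int.fract (g.toAdd 0), ⟨Int.fract_nonneg _, (Int.fract_lt_one _).le⟩, rfl⟩, ?_⟩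
      show Φ g.toAdd y = Φ (Int.fract (g.toAdd 0) • e1) y
      conv_lhs => rw [eq_smul_e1' g.toAdd]
      rw [unit_eq hΦ hu]
      exact ⟨⌊g.toAdd 0⌋, by rw [Int.self_sub_fract]⟩
  obtain ⟨H, ε, hε, hH0, hfam, hH⟩ := pert hact (mem_univ y) hcoc F hm
    (fun i h1 h2 g g' => hdis i h1 h2 _ _) hone
  obtain ⟨κ', hκ', hκU⟩ := fam_mem r hr H hfam y U hU (by rwa [hH0])
  refine ⟨min ε κ' / 2, by positivity, fun c hc => ?_⟩
  have h0 : 0 < min ε κ' := by positivity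
  have h1 : ‖c • e1‖ < min ε κ' := by
    rw [norm_smul_e1]
    linarith
  refine ⟨H (c • e1), hκU _ (h1.trans_le (min_le_right _ _)), fun t => ?_⟩
  have h2 := (hH (c • e1) (h1.trans_le (min_le_left _ _)) (Multiplicative.ofAdd (t • e1))).2
    (Multiplicative.ofAdd (φ t • e1)) (hF t)
  rw [smul_e1_apply] at h2
  have h3 : (H (c • e1))^[m] (Φ (t • e1) y) = Φ (c • e1 + φ t • e1) y := h2
  rw [h3, ← add_smul]

theorem iter_ret {Φ : V 1 → N → N} {y : N} {F : N → N} {m : ℕ} {φ : ℝ → ℝ}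
    (hF : ∀ t : ℝ, F^[m] (Φ (t • e1) y) = Φ (φ t • e1) y) (k : ℕ) (t : ℝ) :
    F^[m * k] (Φ (t • e1) y) = Φ (φ^[k] t • e1) y := by
  induction k generalizing t with
  | zero => rfl
  | succ k ih =>
    rw [Nat.mul_succ, Function.iterate_add_apply, hF, ih, Function.iterate_succ_apply]

/-- One-sided version. -/
theorem one_side (hr : 1 ≤ r) {F : DiffM n N r} (hst : OmegaStable n N r F) {Φ : V 1 → N → N}
    (hΦ : IsAction 1 n N Φ) {y : N} (hu : Unit1 Φ y) {m : ℕ} (hm : 1 ≤ m) {φ : ℝ → ℝ}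
    (hc : Continuous φ) (hmono : Monotone φ) (h1 : ∀ t, φ (t + 1) = φ t + 1)
    (hF : ∀ t : ℝ, F^[m] (Φ (t • e1) y) = Φ (φ t • e1) y)
    (hdis : ∀ i, 1 ≤ i → i < m → ∀ s s', F^[i] (Φ s y) ≠ Φ s' y)
    (hno : ∀ (k : ℕ) (p : ℤ) t, 1 ≤ k → φ^[k] t ≠ t + p)
    (hside : ∀ κ : ℝ, 0 < κ → ∃ (k : ℕ) (p : ℤ) (t : ℝ), 1 ≤ k ∧ φ^[k] t < t + p ∧
      t + p - κ < φ^[k] t) : False := by
  obtain ⟨U, hU, hFU, hconj⟩ := hst
  obtain ⟨κ, hκ, hT⟩ := translate hr hΦ hu F hm hF hdis U hU hFU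
  obtain ⟨k, p, t₀, hk, ht₀, ht₀'⟩ := hside κ hκ
  obtain ⟨c, hc0, hcκ, t₁, ht₁, hle⟩ := first_param hc hmono h1 hk (fun t => hno k p t hk) hκ ht₀
    ht₀'
  obtain ⟨F', hF'U, hF'⟩ := hT c (by rw [abs_of_pos hc0]; exact hcκ)
  have hit := fun t => iter_ret hF' k t
  have hst' := omegaStable_near hU hconj hF'U
  have hp1 : Φ ((t₁ + p) • e1) y = Φ (t₁ • e1) y := (unit_eq hΦ hu _ _).2 ⟨p, by ring⟩
  have hper : F'^[m * k] (Φ (t₁ • e1) y) = Φ (t₁ • e1) y := by
    rw [hit, ht₁, hp1]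
  have hmk : 1 ≤ m * k := Nat.mul_pos hm hk
  have hyp := Gen.stable_hyp hr hst' _ ⟨m * k, hmk, hper⟩
  refine no_tangency hΦ (F := F') hmk hper hyp
    ⟨(1 / 2 : ℝ) • e1, fun h => ?_⟩ (φ := fun t => (fun x => c + φ x)^[k] (t + t₁) - (t₁ + p))
    ?_ ?_ (fun t => ?_) (fun t => ?_)
  · rw [← flow_add hΦ, unit_eq hΦ hu] at h
    obtain ⟨j, hj⟩ := h
    exact not_int (x := 1 / 2) (by norm_num) (by norm_num) j (by linarith)
  · have e1 : Continuous fun t : ℝ => (fun x => c + φ x)^[k] (t + t₁) :=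
      (iter_cont hc k).comp (continuous_const.prodMk (continuous_id.add continuous_const))
    exact (e1.sub continuous_const).continuousAt
  · show (fun x => c + φ x)^[k] (0 + t₁) - (t₁ + p) = 0
    rw [zero_add, ht₁, sub_self]
  · rw [← flow_add hΦ, hit]
    conv_rhs => rw [← hp1]
    rw [← flow_add hΦ, sub_add_cancel]
  · show (fun x => c + φ x)^[k] (t + t₁) - (t₁ + p) ≤ t
    linarith [hle (t + t₁)]

theorem rev_action {Φ : V 1 → N → N} (hΦ : IsAction 1 n N Φ) :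
    IsAction 1 n N (fun s => Φ (-s)) where
  smooth := by
    have h1 : ContMDiff ((𝓡 1).prod (𝓡 n)) ((𝓡 1).prod (𝓡 n)) ∞
        (fun q : V 1 × N => ((-q.1, q.2) : V 1 × N)) := by
      refine ContMDiff.prodMk ?_ contMDiff_snd
      have h2 : ContDiff ℝ ∞ (fun s : V 1 => -s) := contDiff_id.neg
      exact h2.contMDiff.comp contMDiff_fst
    exact hΦ.smooth.comp h1
  zero y := by
    show Φ (-0) y = y
    rw [neg_zero, hΦ.zero]
  add s t y := by
    show Φ (-(s + t)) y = Φ (-s) (Φ (-t) y)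
    rw [neg_add, hΦ.add]

theorem rev_iter (φ : ℝ → ℝ) (k : ℕ) (t : ℝ) : (fun x => -φ (-x))^[k] t = -(φ^[k] (-t)) := by
  induction k generalizing t with
  | zero => simp
  | succ k ih =>
    rw [Function.iterate_succ_apply', ih, Function.iterate_succ_apply', neg_neg]

/-- Returns along the circle. -/
theorem returns (φ : ℝ → ℝ) {κ : ℝ} (hκ : 0 < κ) :
    ∃ (k : ℕ) (p : ℤ) (t : ℝ), 1 ≤ k ∧ |φ^[k] t - (t + p)| < κ := by
  obtain ⟨i, j, hij, hd⟩ := close_pair (S := Icc (0 : ℝ) 1) isCompact_Icc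
    (u := fun j => Int.fract (φ^[j] 0)) (fun j => ⟨Int.fract_nonneg _, (Int.fract_lt_one _).le⟩) hκ
  refine ⟨j - i, ⌊φ^[j] 0⌋ - ⌊φ^[i] 0⌋, φ^[i] 0, by omega, ?_⟩
  rw [← Function.iterate_add_apply, show j - i + i = j by omega]
  rw [Real.dist_eq] at hd
  have e1 := Int.self_sub_floor (φ^[j] 0)
  have e2 := Int.self_sub_floor (φ^[i] 0)
  rw [← e1, ← e2] at hd
  refine lt_of_eq_of_lt ?_ hd
  congr 1
  push_cast
  ring

/-- **Existence of periodic points on periodic circles**, orientation preserving case. -/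
theorem exists_per (hr : 1 ≤ r) {F : DiffM n N r} (hst : OmegaStable n N r F) {Φ : V 1 → N → N}
    (hΦ : IsAction 1 n N Φ) {y : N} (hu : Unit1 Φ y) {m : ℕ} (hm : 1 ≤ m) {φ : ℝ → ℝ}
    (hl : IsLift φ) (h1 : ∀ t, φ (t + 1) = φ t + 1)
    (hF : ∀ t : ℝ, F^[m] (Φ (t • e1) y) = Φ (φ t • e1) y)
    (hdis : ∀ i, 1 ≤ i → i < m → ∀ s s', F^[i] (Φ s y) ≠ Φ s' y) :
    ∃ (k : ℕ) (p : ℤ) (t : ℝ), 1 ≤ k ∧ φ^[k] t = t + p := by
  by_contra hcon
  push Not at hcon
  have hno : ∀ (k : ℕ) (p : ℤ) t, 1 ≤ k → φ^[k] t ≠ t + p := fun k p t hk => hcon k p t hk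
  have hmono := (hl.strictMono h1).monotone
  by_cases hside : ∀ κ : ℝ, 0 < κ → ∃ (k : ℕ) (p : ℤ) (t : ℝ), 1 ≤ k ∧ φ^[k] t < t + p ∧
      t + p - κ < φ^[k] t
  · exact one_side hr hst hΦ hu hm hl.cont hmono h1 hF hdis hno hside
  push Not at hside
  obtain ⟨κ₀, hκ₀, hns⟩ := hside
  refine one_side hr hst (rev_action hΦ) (y := y) ?_ hm (φ := fun t => -φ (-t))
    (hl.cont.comp continuous_neg).neg ?_ ?_ ?_ ?_ ?_ ?_
  · intro t
    show Φ (-(t • e1)) y = y ↔ _
    rw [← neg_smul, hu]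
    constructor
    · rintro ⟨k, hk⟩
      exact ⟨-k, by push_cast; linarith⟩
    · rintro ⟨k, hk⟩
      exact ⟨-k, by push_cast; linarith⟩
  · intro s t hst
    show -φ (-s) ≤ -φ (-t)
    exact neg_le_neg (hmono (neg_le_neg hst))
  · intro t
    show -φ (-(t + 1)) = -φ (-t) + 1
    have e : φ (-t) = φ (-(t + 1)) + 1 := by
      rw [← h1]
      congr 1
      ring
    linarith
  · intro t
    show F^[m] (Φ (-(t • e1)) y) = Φ (-((-φ (-t)) • e1)) y
    rw [← neg_smul, hF, ← neg_smul, neg_neg]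
  · intro i hi1 hi2 s s'
    exact hdis i hi1 hi2 _ _
  · intro k p t hk h
    rw [rev_iter] at h
    apply hno k (-p) (-t) hk
    push_cast
    linarith
  · intro κ hκ
    obtain ⟨k, p, t, hk, hd⟩ := returns φ (κ := min κ κ₀) (by positivity)
    have h2 := abs_lt.1 hd
    refine ⟨k, -p, -t, hk, ?_, ?_⟩
    · rw [rev_iter, neg_neg]
      push_cast
      rcases lt_trichotomy (φ^[k] t) (t + p) with h3 | h3 | h3
      · exfalso
        have h4 := hns k p t hk h3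
        linarith [h2.1, min_le_right κ κ₀]
      · exact absurd h3 (hno k p t hk)
      · linarith
    · rw [rev_iter, neg_neg]
      push_cast
      linarith [h2.2, min_le_left κ κ₀]

end Pool.Agent.W99.PC
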