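import Pool.Agent.R774.Cl5
import Pool.Agent.R774.OS2
import Pool.Agent.W99.PC.Step

/-!
# Closing for diffeomorphisms with one-dimensional leaves, mapped by arbitrary monotone maps
-/

set_option autoImplicit false
set_option linter.unusedSectionVars false

open scoped Manifold ContDiff Topology
open Set Filter

universe u

namespace Pool.Agent.W99.PC

open Pool.Agent.H718R2.G Pool.Agent.TH80.OMS Pool.Agent.R774.ClStmt
  Pool.Agent.W5h63.AP Pool.Agent.R775.HL Pool.Agent.R774.Cl

/-- `z` is chain recurrent modulo the orbits of the flow `Φ`. -/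
def LeafChainRec {N : Type u} [TopologicalSpace N] (Φ : V 1 → N → N) (F : N → N) (z : N) : Prop :=
  ∀ W : Set (N × N), IsOpen W → (∀ x, (x, x) ∈ W) →
    ∃ (l : ℕ) (x : ℕ → N), 1 ≤ l ∧ x 0 = z ∧ x l = z ∧
      ∀ i < l, ∃ s, (Φ s (F (x i)), x (i + 1)) ∈ W

/-- `Φ` is a smooth flow on `N`, the leaves are its orbits; `F` maps leaves to leaves by arbitrary
monotone continuous maps: `F (Φ_a y) = Φ_{α a} (F y)` with `α = α_y : ℝ → ℝ` continuous and
nondecreasing. The closed set `K` is invariant under `F` and a union of leaves which are not points,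
and it contains all points which are chain recurrent modulo the leaves. On `K` the map `F` is
hyperbolic transversally to the leaves: the quadratic form `Q_x(v) = B_x (De v, De v)`, of any
signature, where `e : N → ℝᵐ` and `B` are constant on the leaves, increases strictly under `DF` on
all vectors which are not tangent to the leaves. -/
structure LeafHyp {n m : ℕ} {N : Type u} [TopologicalSpace N] [ChartedSpace (V n) N]
    (F : N → N) (Φ : V 1 → N → N) (K : Set N) (e : N → V m) (B : N → V m →L[ℝ] V m →L[ℝ] ℝ) :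
    Prop where
  action : IsAction 1 n N Φ
  leaves : ∀ y, ∃ α : ℝ → ℝ, Continuous α ∧ Monotone α ∧
    ∀ a : ℝ, F (Φ (a • e1) y) = Φ (α a • e1) (F y)
  closed : IsClosed K
  inv : ∀ x ∈ K, F x ∈ K
  sat : ∀ x ∈ K, ∀ s, Φ s x ∈ K
  chain : ∀ z, LeafChainRec Φ F z → z ∈ K
  free : ∀ x ∈ K, ∀ s, orb (n := n) Φ x s = 0 → s = 0
  smooth : ContMDiff (𝓡 n) (𝓡 m) 1 e
  cont : Continuous B
  inve : ∀ s x, e (Φ s x) = e x
  invB : ∀ s x, B (Φ s x) = B x
  incr : ∀ x ∈ K, ∀ v : V n, (∀ s, v ≠ orb Φ x s) →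
    quad e B x v < quad e B (F x) (dr (V n) (V n) F x v)

/-- Closing of periodic pseudo-orbits with jumps along the leaves. -/
theorem close_ivt {l : ℕ} {α : ℕ → ℝ → ℝ} (hc : ∀ i, Continuous (α i)) (hm : ∀ i, Monotone (α i))
    (h0 : ∀ i, α i 0 = 0) {s : ℕ → ℝ} {ε : ℝ} (hε : 0 < ε) (hs : ∀ i, |s i| < ε) :
    ∃ (c : ℝ) (a : ℕ → ℝ), |c| < ε ∧ a 0 = 0 ∧ (∀ i, a (i + 1) = c - s i + α i (a i)) ∧ a l = 0 := by
  let A : ℝ → ℕ → ℝ := fun c i => Nat.rec 0 (fun i x => c - s i + α i x) i
  have hA0 : ∀ c, A c 0 = 0 := fun c => rfl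
  have hAs : ∀ c i, A c (i + 1) = c - s i + α i (A c i) := fun c i => rfl
  have hAc : ∀ i, Continuous fun c => A c i := by
    intro i
    induction i with
    | zero => exact continuous_const
    | succ i ih =>
      simp only [hAs]
      exact (continuous_id.sub continuous_const).add ((hc i).comp ih)
  obtain ⟨κ, hκ0, hκε, hκ⟩ : ∃ κ, 0 ≤ κ ∧ κ < ε ∧ ∀ i < l, |s i| ≤ κ := by
    have h1 : ∀ l : ℕ, ∃ κ, 0 ≤ κ ∧ κ < ε ∧ ∀ i < l, |s i| ≤ κ := by
      intro l
      induction l with
      | zero => exact ⟨0, le_rfl, hε, fun i hi => by omega⟩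
      | succ l ih =>
        obtain ⟨κ, h1, h2, h3⟩ := ih
        refine ⟨max κ |s l|, le_max_of_le_left h1, max_lt h2 (hs l), fun i hi => ?_⟩
        rcases Nat.lt_succ_iff_lt_or_eq.1 hi with h4 | h4
        · exact (h3 i h4).trans (le_max_left _ _)
        · rw [h4]
          exact le_max_right _ _
    exact h1 l
  have hup : ∀ i, i ≤ l → 0 ≤ A κ i := by
    intro i
    induction i with
    | zero => intro _; exact (hA0 κ).ge
    | succ i ih =>
      intro hi
      rw [hAs]
      have h1 := (hm i) (ih (by omega))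
      rw [h0] at h1
      have h2 := (abs_le.1 (hκ i (by omega))).2
      linarith
  have hdn : ∀ i, i ≤ l → A (-κ) i ≤ 0 := by
    intro i
    induction i with
    | zero => intro _; exact (hA0 (-κ)).le
    | succ i ih =>
      intro hi
      rw [hAs]
      have h1 := (hm i) (ih (by omega))
      rw [h0] at h1
      have h2 := (abs_le.1 (hκ i (by omega))).1
      linarith
  have h1 := intermediate_value_Icc (by linarith : -κ ≤ κ) (hAc l).continuousOn
  obtain ⟨c, hcI, hc0⟩ := h1 ⟨hdn l le_rfl, hup l le_rfl⟩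
  refine ⟨c, A c, ?_, hA0 c, hAs c, hc0⟩
  exact (abs_le.2 ⟨hcI.1, hcI.2⟩).trans_lt hκε

variable {m n : ℕ} {N : Type u} [TopologicalSpace N] [T2Space N] [CompactSpace N]
  [ChartedSpace (V n) N] [IsManifold (𝓡 n) ∞ N] {r : ℕ∞}
  {Φ : V 1 → N → N} {K : Set N} {e : N → V m} {B : N → V m →L[ℝ] V m →L[ℝ] ℝ}

/-- The leaf maps, normalised. -/
theorem LeafHyp.leaf {F : N → N} (h : LeafHyp (n := n) F Φ K e B) (y : N) :
    ∃ α : ℝ → ℝ, Continuous α ∧ Monotone α ∧ α 0 = 0 ∧
      ∀ a : ℝ, F (Φ (a • e1) y) = Φ (α a • e1) (F y) := by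
  obtain ⟨α, h1, h2, h3⟩ := h.leaves y
  refine ⟨fun a => α a - α 0, h1.sub continuous_const, fun a b hab => ?_, sub_self _, fun a => ?_⟩
  · exact sub_le_sub_right (h2 hab) _
  · have h4 : Φ (α 0 • e1) (F y) = F y := by
      rw [← h3 0, zero_smul, h.action.zero]
    rw [h3]
    show Φ (α a • e1) (F y) = Φ ((α a - α 0) • e1) (F y)
    conv_rhs => rw [← h4]
    rw [← flow_add h.action, sub_add_cancel]

/-- the quadratic form does not change along the leaves -/
theorem LeafHyp.basic {F : N → N} (h : LeafHyp (n := n) F Φ K e B) (x : N) (v : V n) (s : V 1) :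
    quad e B x (v + orb Φ x s) = quad e B x v := by
  have hsm : ContMDiff (𝓡 1) (𝓡 n) ∞ (fun s : V 1 => Φ s x) :=
    h.action.smooth.comp (contMDiff_id.prodMk contMDiff_const)
  have h1 : dr (V 1) (V m) (fun s : V 1 => e (Φ s x)) 0 =
      (dr (V n) (V m) e (Φ 0 x)).comp (dr (V 1) (V n) (fun s : V 1 => Φ s x) 0) :=
    dr_comp ((h.smooth _).mdifferentiableAt (by simp)) ((hsm _).mdifferentiableAt (by simp))
  have h2 : (fun s : V 1 => e (Φ s x)) = fun _ => e x := funext fun s => h.inve s x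
  have h3 : dr (V 1) (V m) (fun s : V 1 => e (Φ s x)) 0 = 0 := by
    rw [h2]
    exact mfderiv_const
  rw [h3, h.action.zero] at h1
  have h4 : dr (V n) (V m) e x (orb Φ x s) = 0 := by
    have h5 := DFunLike.congr_fun h1 s
    exact h5.symm
  unfold quad
  rw [map_add, h4, add_zero]

/-- the family `Φ_c ∘ F` -/
noncomputable def fam (hΦ : IsAction 1 n N Φ) (F : DiffM n N r) (c : ℝ) : DiffM n N r :=
  famD hΦ r F (c • e1)

theorem fam_apply (hΦ : IsAction 1 n N Φ) (F : DiffM n N r) (c : ℝ) (y : N) :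
    fam hΦ F c y = Φ (c • e1) (F y) := rfl

theorem fam_fam (hΦ : IsAction 1 n N Φ) (F : DiffM n N r) (c d : ℝ) :
    fam hΦ (fam hΦ F c) d = fam hΦ F (d + c) := by
  ext y
  rw [fam_apply, fam_apply, fam_apply, flow_add hΦ]

theorem fam_zero (hΦ : IsAction 1 n N Φ) (F : DiffM n N r) : fam hΦ F 0 = F := by
  ext y
  rw [fam_apply, zero_smul, hΦ.zero]

/-- The hypotheses are satisfied by `Φ_c ∘ F`. -/
theorem LeafHyp.fam {F : DiffM n N r} (hr : 1 ≤ r) (h : LeafHyp (n := n) F Φ K e B) (c : ℝ) :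
    LeafHyp (n := n) (fam h.action F c) Φ K e B where
  action := h.action
  leaves y := by
    obtain ⟨α, h1, h2, h3⟩ := h.leaves y
    refine ⟨α, h1, h2, fun a => ?_⟩
    rw [fam_apply, fam_apply, h3, ← flow_add h.action, ← flow_add h.action, add_comm]
  closed := h.closed
  inv x hx := h.sat _ (h.inv x hx) _
  sat := h.sat
  chain z hz := by
    apply h.chain
    intro W hW hd
    obtain ⟨l, x, h1, h2, h3, h4⟩ := hz W hW hd
    refine ⟨l, x, h1, h2, h3, fun i hi => ?_⟩
    obtain ⟨s, hs⟩ := h4 i hi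
    refine ⟨s + c • e1, ?_⟩
    rw [h.action.add]
    exact hs
  free := h.free
  smooth := h.smooth
  cont := h.cont
  inve := h.inve
  invB := h.invB
  incr x hx v hv := by
    refine (h.incr x hx v hv).trans_eq ?_
    have hF1 : ContMDiff (𝓡 n) (𝓡 n) 1 F := F.contMDiff_toFun.of_le (by exact_mod_cast hr)
    have hG1 : ContMDiff (𝓡 n) (𝓡 n) 1 (PC.fam h.action F c) :=
      (PC.fam h.action F c).contMDiff_toFun.of_le (by exact_mod_cast hr)
    have h1 : dr (V n) (V m) (fun y => e (F y)) x =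
        (dr (V n) (V m) e (F x)).comp (dr (V n) (V n) F x) :=
      dr_comp ((h.smooth _).mdifferentiableAt (by simp)) ((hF1 _).mdifferentiableAt (by simp))
    have h2 : dr (V n) (V m) (fun y => e (PC.fam h.action F c y)) x =
        (dr (V n) (V m) e (PC.fam h.action F c x)).comp (dr (V n) (V n) (PC.fam h.action F c) x) :=
      dr_comp ((h.smooth _).mdifferentiableAt (by simp)) ((hG1 _).mdifferentiableAt (by simp))
    have h3 : (fun y => e (PC.fam h.action F c y)) = fun y => e (F y) := funext fun y => by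
      rw [fam_apply, h.inve]
    rw [h3, h1] at h2
    have h4 := DFunLike.congr_fun h2 v
    rw [ContinuousLinearMap.comp_apply, ContinuousLinearMap.comp_apply] at h4
    unfold quad
    rw [← h4, fam_apply, h.invB]

/-- **Closing in the family `Φ_c ∘ F`.** -/
theorem near_per (hr : 1 ≤ r) {F : DiffM n N r} (h : LeafHyp (n := n) F Φ K e B) {z : N}
    (hz : ChainRecOn F K z) {ε : ℝ} (hε : 0 < ε) {W : Set N} (hW : W ∈ 𝓝 z) :
    ∃ c : ℝ, |c| < ε ∧ ∃ y ∈ W, y ∈ Per (fam h.action F c) := by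
  have hΦ : Act (E := V n) Φ :=
    ⟨h.action.smooth.of_le (by exact_mod_cast le_top), h.action.zero⟩
  have hF1 : ContMDiff (𝓡 n) (𝓡 n) 1 F :=
    F.contMDiff_toFun.of_le (by exact_mod_cast hr)
  obtain ⟨M, d, hd1, hd2, -⟩ := exists_embedding_euclidean_of_compact (I := 𝓡 n) (M := N)
  obtain ⟨δ, hδ, hcl⟩ := closing (E := V n) (T := V 1) hΦ hF1 h.cont h.smooth
    (d := d) hd1.continuous hd2.injective h.closed h.inv h.free
    (fun x _ v s => h.basic x v s) h.incr
    (Q := fun x y s => ‖s‖ < ε ∧ (x = z → y ∈ W))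
    (by
      intro x hx
      have e2 : ∀ᶠ q : N × N × V 1 in 𝓝 (x, x, (0 : V 1)), ‖q.2.2‖ < ε := by
        have h1 : Continuous (fun q : N × N × V 1 => ‖q.2.2‖) :=
          (continuous_snd.comp continuous_snd).norm
        have h2 := h1.tendsto (x, x, (0 : V 1))
        simp only [norm_zero] at h2
        exact h2.eventually (gt_mem_nhds hε)
      have e3 : ∀ᶠ q : N × N × V 1 in 𝓝 (x, x, (0 : V 1)), (q.1 = z → q.2.1 ∈ W) := by
        by_cases hxz : x = z
        · have h1 : Continuous (fun q : N × N × V 1 => q.2.1) :=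
            continuous_fst.comp continuous_snd
          have hW' := hW
          rw [← hxz] at hW'
          filter_upwards [(h1.tendsto (x, x, (0 : V 1))).eventually hW'] with q hq _
          exact hq
        · have h1 : Continuous (fun q : N × N × V 1 => q.1) := continuous_fst
          filter_upwards [(h1.tendsto (x, x, (0 : V 1))).eventually
            (isOpen_ne.mem_nhds hxz)] with q hq h2
          exact absurd h2 hq
      filter_upwards [e2, e3] with q h2 h3
      exact ⟨h2, h3⟩)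
  obtain ⟨l, x, hl, hx0, hxl, hxK, hxW⟩ := hz {q | ‖d q.2 - d q.1‖ < δ}
    (isOpen_lt ((hd1.continuous.comp continuous_snd).sub
      (hd1.continuous.comp continuous_fst)).norm continuous_const)
    (fun x => by simpa using hδ)
  have : NeZero l := ⟨by omega⟩
  obtain ⟨y, s, hys, hQ⟩ := hcl l (fun i => x i.val)
    (fun i => hxK _ (ZMod.val_lt i).le) (fun i => by
      have h1 := hxW i.val (ZMod.val_lt i)
      rw [wrap (hxl.trans hx0.symm) i]
      exact h1)
  have hy0 : y 0 ∈ W := (hQ 0).2 (by rw [ZMod.val_zero, hx0])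
  choose α hαc hαm hα0 hα using fun j : ℕ => h.leaf (y (j : ZMod l))
  obtain ⟨c, a, hcε, ha0, has, hal⟩ := close_ivt (l := l) hαc hαm hα0
    (s := fun j : ℕ => (s (j : ZMod l)) 0) hε (fun j => by
      have h1 : ‖s (j : ZMod l)‖ < ε := (hQ _).1
      rw [eq_smul_e1' (s (j : ZMod l)), norm_smul_e1] at h1
      exact h1)
  refine ⟨c, hcε, y 0, hy0, l, hl, ?_⟩
  have hit : ∀ j : ℕ, (fam h.action F c)^[j] (y 0) = Φ (a j • e1) (y (j : ZMod l)) := by
    intro j
    induction j with
    | zero => simp [ha0, h.action.zero]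
    | succ j ih =>
      have e1' : ((j + 1 : ℕ) : ZMod l) = (j : ZMod l) + 1 := by push_cast; rfl
      have hstep : F (y (j : ZMod l)) = Φ ((-(s (j : ZMod l) 0)) • e1) (y ((j : ZMod l) + 1)) := by
        rw [neg_smul, ← eq_smul_e1', ← hys, ← h.action.add, neg_add_cancel, h.action.zero]
      rw [Function.iterate_succ_apply', ih, fam_apply, hα, hstep, ← flow_add h.action,
        ← flow_add h.action, has, e1']
      congr 2
      ring
  rw [hit, hal, zero_smul, h.action.zero, ZMod.natCast_self]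

end Pool.Agent.W99.PC
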