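import Pool.Agent.W99.PC.Rec
import Pool.Agent.W99.PC.Defs

/-!
# Periodic circles of `Ω`-stable diffeomorphisms
-/

set_option autoImplicit false
set_option linter.unusedSectionVars false

open scoped Manifold ContDiff Topology
open Set Filter

universe u

namespace Pool.Agent.W99.PC

open Pool.Agent.H718R2.G Pool.Agent.TH80.OMS Pool.Agent.Y504.CO Pool.Agent.R774.ClStmt
  Pool.Agent.W5h63.AP Pool.Agent.R775.HL

variable {n : ℕ} {N : Type u} [TopologicalSpace N] [T2Space N] [CompactSpace N]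
  [ChartedSpace (V n) N] [IsManifold (𝓡 n) ∞ N] {r : ℕ∞}

theorem circle_main (hr : 1 ≤ r) {F : DiffM n N r} (hst : OmegaStable n N r F) {C : Set N}
    (hC : IsPerCircle n F C) : MorseSmaleOn F C := by
  obtain ⟨Φ₀, y, m, hΦ₀, hper, hmove, hCy, hm, hFC, hdis⟩ := hC
  obtain ⟨Φ, hΦ, hu, ho⟩ := exists_unit hΦ₀ hper hmove
  have hCo : C = orbC Φ y := by rw [hCy, ho]; rfl
  rw [hCo] at hFC hdis ⊢
  have hCm : ∀ z ∈ orbC Φ y, F^[m] z ∈ orbC Φ y := fun z hz =>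
    hFC.subset (mem_image_of_mem _ hz)
  obtain ⟨φ, hl, hφ⟩ := exists_lift hΦ hu (F.continuous.iterate m) (F.injective.iterate m) hCm
  have hdis' : ∀ i, 1 ≤ i → i < m → ∀ s s', F^[i] (Φ s y) ≠ Φ s' y := by
    intro i h1 h2 s s' h
    exact Set.disjoint_left.1 (hdis i h1 h2) (mem_image_of_mem _ ⟨s, rfl⟩) ⟨s', h.symm⟩
  have hne : (orbC Φ y ∩ Per F).Nonempty := by
    rcases hl.deg_cases with h1 | h1
    · obtain ⟨k, p, t, hk, ht⟩ := exists_per hr hst hΦ hu hm hl h1 hφ hdis'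
      refine ⟨Φ (t • e1) y, mem_orbC t, m * k, Nat.mul_pos hm hk, ?_⟩
      rw [iter_ret hφ, ht]
      exact (unit_eq hΦ hu _ _).2 ⟨p, by ring⟩
    · obtain ⟨t, ht⟩ := exists_fixed hl.cont h1
      refine ⟨Φ (t • e1) y, mem_orbC t, m, hm, ?_⟩
      rw [hφ, ht]
  exact ⟨hne, fin_circle hr hst hΦ hu hm hFC, fun x hx => rec_circle F hΦ hu hm hFC hne hx.1 hx.2⟩

theorem circles_near (hr : 1 ≤ r) {F : DiffM n N r} (hst : OmegaStable n N r F) :
    ∃ U : Set (DiffM n N r), IsOpen[strongTop n N r] U ∧ F ∈ U ∧ ∀ G ∈ U, ∀ C : Set N,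
      IsPerCircle n G C → MorseSmaleOn G C := by
  obtain ⟨U, hU, hFU, hconj⟩ := hst
  exact ⟨U, hU, hFU, fun G hG C hC => circle_main hr (omegaStable_near hU hconj hG) hC⟩

/-- Nonperiodic recurrence only on periodic circles. -/
theorem circles_axiomA (hr : 1 ≤ r) {F : DiffM n N r} (hst : OmegaStable n N r F)
    (hR : RecOnCircles n F) :
    (Omega F).Finite ∧ ∀ p ∈ Omega F, IsHyperbolicPer n F p := by
  have h1 : (Rec F \ Per F).Countable := by
    refine hR.mono ?_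
    rintro x ⟨hx, hxp⟩
    refine ⟨hx, hxp, ?_⟩
    rintro ⟨C, hC, hxC⟩
    exact hxp ((circle_main hr hst hC).rec_per ⟨hxC, hx⟩)
  have h2 := Gen.stable hr hst h1
  exact ⟨h2.1.1, h2.2⟩

end Pool.Agent.W99.PC
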