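import Pool.Agent.W99.PC.Step
import Pool.Agent.W5h32.TX.Circ

/-!
# Recurrent and periodic points on a periodic circle
-/

set_option autoImplicit false
set_option linter.unusedSectionVars false

open scoped Manifold ContDiff Topology
open Set Filter

universe u

namespace Pool.Agent.W99.PC

open Pool.Agent.H718R2.G Pool.Agent.TH80.OMS Pool.Agent.Y504.CO Pool.Agent.R774.ClStmt
  Pool.Agent.W5h63.AP Pool.Agent.R773.TE Pool.Agent.W5h32.TX
open Pool.Agent.H728R2.FA (omegaLim)

variable {n : ℕ} {N : Type u} [TopologicalSpace N] [T2Space N] [CompactSpace N]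
  [ChartedSpace (V n) N] [IsManifold (𝓡 n) ∞ N] {r : ℕ∞}

theorem iter_fixed {X : Type*} {F : X → X} {M : ℕ} {z : X} (h : F^[M] z = z) (j : ℕ) :
    F^[M * j] z = z := by
  have h1 : Function.IsPeriodicPt F M z := h
  exact h1.mul_const j

/-- A recurrent point whose orbit converges to a periodic orbit is periodic. -/
theorem rec_of_conv {X : Type u} [TopologicalSpace X] [T2Space X] (F : X ≃ₜ X) {M : ℕ} (hM : 1 ≤ M)
    {x z : X} (hz : F^[M] z = z) (h : Tendsto (fun j : ℕ => F^[M * j] x) atTop (𝓝 z))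
    (hx : x ∈ Rec F) : x ∈ Per F := by
  by_contra hper
  have hne : ∀ i, 1 ≤ i → F^[i] x ≠ x := fun i hi h => hper ⟨i, hi, h⟩
  have hom : x ∈ omegaLim F x := by
    intro W hW l
    have h1 : (⋂ i ∈ Finset.Ico 1 (l + 1), {F^[i] x}ᶜ) ∈ 𝓝 x := by
      rw [Filter.biInter_finset_mem]
      intro i hi
      exact isOpen_compl_singleton.mem_nhds (hne i (Finset.mem_Ico.1 hi).1).symm
    obtain ⟨k, hk, hkW⟩ := hx _ (inter_mem hW h1)
    refine ⟨k, ?_, hkW.1⟩
    by_contra hlt
    push Not at hlt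
    have h2 := mem_iInter₂.1 hkW.2 k (Finset.mem_Ico.2 ⟨hk, by omega⟩)
    exact h2 rfl
  obtain ⟨i, hi⟩ := omega_lim F hM h hom
  refine hne M hM ?_
  have hi' : F^[i] z = x := hi
  rw [← hi', ← Function.iterate_add_apply, add_comm, Function.iterate_add_apply, hz]

section circle

variable {Φ : V 1 → N → N} (hΦ : IsAction 1 n N Φ) {y : N} (hu : Unit1 Φ y) {T : N → N}
  (hT : Continuous T) (hTi : Function.Injective T) (hC : T '' orbC Φ y = orbC Φ y)

include hΦ hu hT hTi hC in
/-- the homeomorphism of the circle -/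
theorem exists_ret : ∃ f : orbC Φ y ≃ₜ orbC Φ y, ∀ x, (f x : N) = T x := by
  have : Fact ((0 : ℝ) < 1) := ⟨one_pos⟩
  obtain ⟨σ, -⟩ := exists_homeo hΦ hu
  have : CompactSpace (orbC Φ y) := σ.symm.compactSpace
  have hm : ∀ x : orbC Φ y, T x ∈ orbC Φ y := fun x =>
    hC.subset (mem_image_of_mem T x.2)
  let g : orbC Φ y → orbC Φ y := fun x => ⟨T x, hm x⟩
  have hg : Continuous g := (hT.comp continuous_subtype_val).subtype_mk _
  have hb : Function.Bijective g := by
    constructor
    · intro a b hab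
      exact Subtype.ext (hTi (congrArg Subtype.val hab))
    · rintro ⟨z, hz⟩
      rw [← hC] at hz
      obtain ⟨w, hw, rfl⟩ := hz
      exact ⟨⟨w, hw⟩, rfl⟩
  have he : Continuous (Equiv.ofBijective g hb) := hg
  exact ⟨Continuous.homeoOfEquivCompactToT2 he, fun x => rfl⟩

theorem coe_iter {C : Set N} {f : C ≃ₜ C} (hf : ∀ x, (f x : N) = T x) (j : ℕ) (x : C) :
    ((f^[j] x : C) : N) = T^[j] x := by
  induction j with
  | zero => rfl
  | succ j ih => rw [Function.iterate_succ_apply', hf, ih, Function.iterate_succ_apply' T]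

end circle

/-- Recurrent points on a periodic circle which contains a periodic point are periodic. -/
theorem rec_circle (F : DiffM n N r) {Φ : V 1 → N → N} (hΦ : IsAction 1 n N Φ) {y : N}
    (hu : Unit1 Φ y) {m : ℕ} (hm : 1 ≤ m) (hC : F^[m] '' orbC Φ y = orbC Φ y)
    (hper : (orbC Φ y ∩ Per F).Nonempty) {x : N} (hx : x ∈ orbC Φ y) (hxr : x ∈ Rec F) :
    x ∈ Per F := by
  obtain ⟨σ, -⟩ := exists_homeo hΦ hu
  obtain ⟨f, hf⟩ := exists_ret hΦ hu (F.continuous.iterate m) (F.injective.iterate m) hC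
  have hco := coe_iter hf
  obtain ⟨p, hpC, j, hj, hp⟩ := hper
  have hfp : f^[j] ⟨p, hpC⟩ = ⟨p, hpC⟩ := by
    apply Subtype.ext
    rw [hco, ← Function.iterate_mul, mul_comm]
    exact iter_fixed hp m
  obtain ⟨z, hz⟩ := orbit_conv σ f hfp ⟨x, hx⟩
  have hzf := lim_fixed f hz
  have h1 : Tendsto (fun i : ℕ => F^[m * (j * 2) * i] x) atTop (𝓝 (z : N)) := by
    have h2 := (continuous_subtype_val.tendsto z).comp hz
    refine h2.congr fun i => ?_
    show ((f^[j * 2 * i] ⟨x, hx⟩ : orbC Φ y) : N) = _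
    rw [hco, ← Function.iterate_mul, ← mul_assoc]
  have h2 : F^[m * (j * 2)] (z : N) = z := by
    have h3 := congrArg Subtype.val hzf
    rw [hco, ← Function.iterate_mul] at h3
    exact h3
  exact rec_of_conv F.toHomeomorph (M := m * (j * 2)) (by
    have : 0 < m * (j * 2) := by positivity
    exact this) h2 h1 hxr

/-- Finitely many periodic points on a circle. -/
theorem fin_circle (hr : 1 ≤ r) {F : DiffM n N r} (hst : OmegaStable n N r F) {Φ : V 1 → N → N}
    (hΦ : IsAction 1 n N Φ) {y : N} (hu : Unit1 Φ y) {m : ℕ} (hm : 1 ≤ m)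
    (hC : F^[m] '' orbC Φ y = orbC Φ y) : (orbC Φ y ∩ Per F).Finite := by
  have hCm : ∀ z ∈ orbC Φ y, F^[m] z ∈ orbC Φ y := fun z hz => by
    rw [← hC]
    exact mem_image_of_mem _ hz
  obtain ⟨σ, -⟩ := exists_homeo hΦ hu
  obtain ⟨f, hf⟩ := exists_ret hΦ hu (F.continuous.iterate m) (F.injective.iterate m) hC
  have hco := coe_iter hf
  obtain ⟨φ, hl, hφ⟩ := exists_lift hΦ hu (F.continuous.iterate m) (F.injective.iterate m) hCm
  have hfin : ∀ k : ℕ, 1 ≤ k → {b | f^[k] b = b}.Finite := by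
    intro k hk
    have hmk : 1 ≤ m * k := Nat.mul_pos hm hk
    -- the parameters of the fixed points
    obtain ⟨A, hA⟩ : ∃ A : Set ℝ, A = Icc 0 1 ∩ {t | F^[m * k] (Φ (t • e1) y) = Φ (t • e1) y} :=
      ⟨_, rfl⟩
    have hAc : IsCompact A := by
      rw [hA]
      exact isCompact_Icc.inter_right
        (isClosed_eq ((F.continuous.iterate _).comp (flow_cont hΦ)) (flow_cont hΦ))
    have hiso : ∀ t ∈ A, ∀ᶠ s in 𝓝[≠] t, s ∉ A := by
      intro t₁ ht₁
      rw [hA] at ht₁
      have hfx : F^[m * k] (Φ (t₁ • e1) y) = Φ (t₁ • e1) y := ht₁.2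
      have hfx' := hfx
      rw [iter_ret hφ, unit_eq hΦ hu] at hfx'
      obtain ⟨p, hp⟩ := hfx'
      have hyp := Gen.stable_hyp hr hst _ ⟨m * k, hmk, hfx⟩
      have hp1 : Φ ((t₁ + p) • e1) y = Φ (t₁ • e1) y := (unit_eq hΦ hu _ _).2 ⟨p, by ring⟩
      have hkc : Continuous (φ^[k]) := hl.cont.iterate k
      obtain ⟨b, hb, hb1⟩ := flow_deriv hΦ (F := F) hmk hfx hyp
        ⟨(1 / 2 : ℝ) • e1, fun h => by
          rw [← flow_add hΦ, unit_eq hΦ hu] at h
          obtain ⟨j, hj⟩ := h
          exact not_int (x := 1 / 2) (by norm_num) (by norm_num) j (by linarith)⟩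
        (φ := fun t => φ^[k] (t + t₁) - (t₁ + p))
        ((hkc.comp (continuous_id.add continuous_const)).sub continuous_const).continuousAt
        (by
          show φ^[k] (0 + t₁) - (t₁ + p) = 0
          rw [zero_add]
          linarith)
        (fun t => by
          rw [← flow_add hΦ, iter_ret hφ]
          conv_rhs => rw [← hp1]
          rw [← flow_add hΦ, sub_add_cancel])
      have hb' : b ≠ 1 := by
        rintro rfl
        exact hb1 abs_one
      have h1 : HasDerivAt (fun t => φ^[k] (t + t₁) - (t₁ + p) - t) (b - 1) 0 :=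
        hb.sub (hasDerivAt_id 0)
      have h2 := h1.eventually_ne (c := 0) (sub_ne_zero.2 hb')
      -- translate to `t₁`
      have h3 : ∀ᶠ s in 𝓝[≠] t₁, φ^[k] s - s ≠ p := by
        have hmap : Tendsto (fun s : ℝ => s - t₁) (𝓝[≠] t₁) (𝓝[≠] 0) := by
          refine tendsto_nhdsWithin_iff.2 ⟨?_, ?_⟩
          · have : Tendsto (fun s : ℝ => s - t₁) (𝓝 t₁) (𝓝 (t₁ - t₁)) :=
              (continuous_id.sub continuous_const).tendsto t₁
            rw [sub_self] at this
            exact this.mono_left nhdsWithin_le_nhds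
          · filter_upwards [self_mem_nhdsWithin] with s hs
            exact sub_ne_zero.2 hs
        filter_upwards [hmap.eventually h2] with s hs h4
        apply hs
        show φ^[k] (s - t₁ + t₁) - (t₁ + p) - (s - t₁) = 0
        rw [sub_add_cancel]
        linarith
      have h4 : ∀ᶠ s in 𝓝[≠] t₁, |φ^[k] s - s - p| < 1 := by
        have h5 : Continuous fun s => φ^[k] s - s - (p : ℝ) :=
          (hkc.sub continuous_id).sub continuous_const
        have h6 : Tendsto (fun s => φ^[k] s - s - (p : ℝ)) (𝓝 t₁) (𝓝 (φ^[k] t₁ - t₁ - p)) :=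
          h5.tendsto t₁
        rw [hp, sub_self] at h6
        have h7 := h6.abs
        rw [abs_zero] at h7
        exact (h7.eventually (gt_mem_nhds one_pos)).filter_mono nhdsWithin_le_nhds
      filter_upwards [h3, h4] with s hs hs' hsA
      rw [hA] at hsA
      have h5 : F^[m * k] (Φ (s • e1) y) = Φ (s • e1) y := hsA.2
      rw [iter_ret hφ, unit_eq hΦ hu] at h5
      obtain ⟨q, hq⟩ := h5
      rw [hq] at hs'
      have h6 : |(q - p : ℤ)| < 1 := by exact_mod_cast hs'
      have h7 : q - p = 0 := Int.abs_lt_one_iff.1 h6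
      apply hs
      rw [hq]
      exact_mod_cast sub_eq_zero.1 h7
    have hAfin : A.Finite := by
      by_contra hinf
      obtain ⟨t, ht, hacc⟩ := Set.Infinite.exists_accPt_of_subset_isCompact hinf hAc subset_rfl
      rw [accPt_iff_frequently_nhdsNE] at hacc
      exact hacc (by
        filter_upwards [hiso t ht] with s hs using hs)
    refine Set.Finite.of_finite_image (f := Subtype.val) ?_ Subtype.val_injective.injOn
    refine (hAfin.image fun t : ℝ => Φ (t • e1) y).subset ?_
    rintro _ ⟨⟨b, hb⟩, hbf, rfl⟩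
    obtain ⟨t, rfl⟩ := orbC_eq hb
    have h1 : Φ (Int.fract t • e1) y = Φ (t • e1) y :=
      (unit_eq hΦ hu _ _).2 ⟨-⌊t⌋, by
        have := Int.self_sub_floor t
        push_cast
        linarith⟩
    refine ⟨Int.fract t, ?_, h1⟩
    rw [hA]
    refine ⟨⟨Int.fract_nonneg _, (Int.fract_lt_one _).le⟩, ?_⟩
    show F^[m * k] (Φ (Int.fract t • e1) y) = Φ (Int.fract t • e1) y
    rw [h1]
    have h2 := congrArg Subtype.val (show f^[k] _ = _ from hbf)
    rw [hco, ← Function.iterate_mul] at h2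
    exact h2
  have h1 := per_circle σ f hfin
  refine (h1.image Subtype.val).subset ?_
  rintro z ⟨hzC, j, hj, hz⟩
  refine ⟨⟨z, hzC⟩, ⟨j, hj, ?_⟩, rfl⟩
  apply Subtype.ext
  rw [hco, ← Function.iterate_mul, mul_comm]
  exact iter_fixed hz m

end Pool.Agent.W99.PC
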